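import Pool.Agent.Q295.RG.Og

/-!
# Flows of the substituted graph
-/

set_option autoImplicit false

namespace Pool.Agent.Q295.RG

open Finset Pool.Agent.H160R2.HF Pool.Agent.Q234.HF

/-- There is a flow with values in `S`. -/
def HasFlow {V E : Type} [Fintype E] [DecidableEq V] (O : OrGraph V E) (A : Type)
    [AddCommGroup A] (S : Set A) : Prop :=
  ∃ ψ : E → A, (∀ v, ∑ e with O.t e = v, ψ e = ∑ e with O.h e = v, ψ e) ∧ ∀ e, ψ e ∈ S

section

variable {V E : Type} [Fintype V] [Fintype E] [DecidableEq V] [DecidableEq E] {A : Type}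
  [AddCommGroup A]

omit [Fintype V] [DecidableEq E] in
theorem gn_eq (O : OrGraph V E) (ψ : E → A) (v : V) :
    gn O ψ v = (∑ e with O.t e = v, ψ e) - ∑ e with O.h e = v, ψ e := by
  unfold gn
  rw [Finset.sum_sub_distrib, Finset.sum_filter, Finset.sum_filter]

omit [Fintype V] [DecidableEq E] in
theorem hasFlow_iff (O : OrGraph V E) (S : Set A) :
    HasFlow O A S ↔ ∃ ψ : E → A, (∀ v, gn O ψ v = 0) ∧ ∀ e, ψ e ∈ S := by
  unfold HasFlow
  constructor
  · rintro ⟨ψ, h1, h2⟩
    exact ⟨ψ, fun v => by rw [gn_eq, h1, sub_self], h2⟩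
  · rintro ⟨ψ, h1, h2⟩
    refine ⟨ψ, fun v => ?_, h2⟩
    have := h1 v
    rw [gn_eq] at this
    exact sub_eq_zero.mp this

/-- the contribution of an edge at a vertex -/
def cv (O : OrGraph V E) (ψ : E → A) (v : V) (e : E) : A :=
  (if O.t e = v then ψ e else 0) - (if O.h e = v then ψ e else 0)

omit [Fintype V] in
theorem gn_local (P : OrGraph V E) (ψ : E → A) (p : V) (ea : Fin 3 → E)
    (hinj : Function.Injective ea) (hea : ∀ f, p ∈ ed P f ↔ ∃ i, f = ea i) :
    gn P ψ p = ∑ i, cv P ψ p (ea i) := by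
  have h1 : gn P ψ p = ∑ e ∈ univ.image ea, cv P ψ p e := by
    show ∑ e, cv P ψ p e = _
    symm
    refine Finset.sum_subset (Finset.subset_univ _) ?_
    intro e _ he
    have h2 : ¬ p ∈ ed P e := by
      rw [hea]
      rintro ⟨i, rfl⟩
      exact he (Finset.mem_image_of_mem _ (Finset.mem_univ _))
    rw [mem_ed, not_or] at h2
    unfold cv
    rw [if_neg h2.1, if_neg h2.2, sub_zero]
  rw [h1, Finset.sum_image (fun i _ j _ h => hinj h)]

end

section

variable {g : ℕ} {V E : Type} [Fintype V] [Fintype E] [DecidableEq V] [DecidableEq E]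
  {O : OrGraph V E} (N : Num 3 (ed O)) {Λ : Type} [Group Λ] [Fintype Λ] [DecidableEq Λ]
  (G : Gad 3 g Λ) [Fintype (E2 V E G)] [DecidableEq (E2 V E G)] {A : Type} [AddCommGroup A]

omit [Fintype Λ] [DecidableEq Λ] [DecidableEq E] [Fintype V] [Fintype (E2 V E G)]
  [DecidableEq (E2 V E G)] in
theorem gn_num (ψ : E → A) (v : V) : gn O ψ v = ∑ i, cv O ψ v (N.eo v i) := by
  classical
  refine gn_local O ψ v (N.eo v) ?_ ?_
  · intro i j h
    rw [← N.num_eo v i, h, N.num_eo]
  · intro f
    constructor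
    · intro h
      exact ⟨N.num v f, (N.eo_num v f h).symm⟩
    · rintro ⟨i, rfl⟩
      exact N.mem v i

/-- contraction -/
theorem flow_down (ψ : E2 V E G → A) (h : ∀ p, gn (og2 N G) ψ p = 0) (v : V) :
    gn O (fun e => ψ (.inl e)) v = 0 := by
  classical
  have h1 : ∑ x : {x : Λ // x ≠ 1}, gn (og2 N G) ψ (v, x) = 0 :=
    Finset.sum_eq_zero fun x _ => h _
  rw [← h1]
  unfold gn
  rw [Finset.sum_comm]
  have h2 : ∀ (q : V × {x : Λ // x ≠ 1}) (c : A),
      (∑ x : {x : Λ // x ≠ 1}, if q = (v, x) then c else 0) = if q.1 = v then c else 0 := by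
    intro q c
    by_cases hq : q.1 = v
    · rw [if_pos hq, Finset.sum_eq_single q.2]
      · have hq' : q = (v, q.2) := Prod.ext hq rfl
        exact if_pos hq'
      · intro x _ hx
        rw [if_neg]
        intro h3
        exact hx (congrArg Prod.snd h3).symm
      · intro h3
        exact absurd (Finset.mem_univ _) h3
    · rw [if_neg hq]
      refine Finset.sum_eq_zero fun x _ => ?_
      rw [if_neg]
      intro h3
      exact hq (congrArg Prod.fst h3)
  have h3 : ∀ f : E2 V E G, (∑ x : {x : Λ // x ≠ 1},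
      ((if (og2 N G).t f = (v, x) then ψ f else 0) - (if (og2 N G).h f = (v, x) then ψ f else 0))) =
      (if ((og2 N G).t f).1 = v then ψ f else 0) - (if ((og2 N G).h f).1 = v then ψ f else 0) := by
    intro f
    rw [Finset.sum_sub_distrib, h2, h2]
  rw [Finset.sum_congr rfl (fun f _ => h3 f)]
  have h4 : ∑ f : E2 V E G, ((if ((og2 N G).t f).1 = v then ψ f else 0) -
      (if ((og2 N G).h f).1 = v then ψ f else 0)) =
      ∑ f ∈ (univ : Finset E).image (Sum.inl : E → E2 V E G),
        ((if ((og2 N G).t f).1 = v then ψ f else 0) -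
          (if ((og2 N G).h f).1 = v then ψ f else 0)) := by
    symm
    refine Finset.sum_subset (Finset.subset_univ _) ?_
    intro f _ hf
    rcases f with e | ⟨u, y, i⟩
    · exact absurd (Finset.mem_image_of_mem _ (Finset.mem_univ e)) hf
    · exact sub_self _
  rw [h4, Finset.sum_image (fun a _ b _ hab => Sum.inl_injective hab)]
  rfl

/-- extension -/
theorem flow_up (ψ : E → A) (h : ∀ v, gn O ψ v = 0) (p : V × {x : Λ // x ≠ 1}) :
    gn (og2 N G) (fun f => match f with
      | .inl e => ψ e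
      | .inr (v, _, i) => - cv O ψ v (N.eo v i)) p = 0 := by
  classical
  obtain ⟨v, x, hx⟩ := p
  rw [gn_local (og2 N G) _ _ (edgeAt N G (v, ⟨x, hx⟩)) (edgeAt_inj N G _) (by
    intro f
    rw [ed_og2]
    exact mem_iff N G _ f)]
  have hsum : ∑ i, cv O ψ v (N.eo v i) = 0 := by
    rw [← gn_num N ψ v]
    exact h v
  by_cases h1 : G.par x = false
  · have h2 : ∀ i, cv (og2 N G) (fun f : E2 V E G => match f with
        | .inl e => ψ e
        | .inr (v, _, i) => - cv O ψ v (N.eo v i)) (v, ⟨x, hx⟩) (edgeAt N G (v, ⟨x, hx⟩) i) =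
        - cv O ψ v (N.eo v i) := by
      intro i
      have h3 : edgeAt N G (v, (⟨x, hx⟩ : {x : Λ // x ≠ 1})) i = .inr (v, ⟨x, h1, hx⟩, i) := by
        unfold edgeAt
        rw [dif_pos h1]
      rw [h3]
      unfold cv
      have h4 : (og2 N G).t (.inr (v, ⟨x, h1, hx⟩, i)) = (v, (⟨x, hx⟩ : {x : Λ // x ≠ 1})) := rfl
      have h5 : (og2 N G).h (.inr (v, ⟨x, h1, hx⟩, i)) ≠ (v, (⟨x, hx⟩ : {x : Λ // x ≠ 1})) := by
        intro h6
        have h7 : x * G.t i = x := congrArg (fun z => z.2.1) h6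
        have h8 := G.par_mul x i
        rw [h7, h1] at h8
        exact absurd h8 (by decide)
      rw [if_pos h4, if_neg h5, sub_zero]
    rw [Finset.sum_congr rfl (fun i _ => h2 i), Finset.sum_neg_distrib, hsum, neg_zero]
  · have h2 : ∀ i, cv (og2 N G) (fun f : E2 V E G => match f with
        | .inl e => ψ e
        | .inr (v, _, i) => - cv O ψ v (N.eo v i)) (v, ⟨x, hx⟩) (edgeAt N G (v, ⟨x, hx⟩) i) =
        cv O ψ v (N.eo v i) := by
      intro i
      have h1' : G.par x = true := by
        cases hh : G.par x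
        · exact absurd hh h1
        · rfl
      by_cases h3 : x * G.t i = 1
      · have hxt : x = G.t i := by
          have h7 := G.mul_mul x i
          rw [h3, one_mul] at h7
          exact h7.symm
        have h4 : edgeAt N G (v, (⟨x, hx⟩ : {x : Λ // x ≠ 1})) i = .inl (N.eo v i) := by
          unfold edgeAt
          rw [dif_neg h1, dif_pos h3]
        rw [h4]
        unfold cv
        have hp : (⟨x, hx⟩ : {x : Λ // x ≠ 1}) = G.port i := Subtype.ext hxt
        have h5 : (og2 N G).t (.inl (N.eo v i)) = (v, (⟨x, hx⟩ : {x : Λ // x ≠ 1})) ↔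
            O.t (N.eo v i) = v := by
          constructor
          · intro h6
            exact congrArg Prod.fst h6
          · intro h6
            show (O.t (N.eo v i), G.port (N.num (O.t (N.eo v i)) (N.eo v i))) = _
            rw [h6, N.num_eo, hp]
        have h6 : (og2 N G).h (.inl (N.eo v i)) = (v, (⟨x, hx⟩ : {x : Λ // x ≠ 1})) ↔
            O.h (N.eo v i) = v := by
          constructor
          · intro h6
            exact congrArg Prod.fst h6
          · intro h6
            show (O.h (N.eo v i), G.port (N.num (O.h (N.eo v i)) (N.eo v i))) = _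
            rw [h6, N.num_eo, hp]
        simp only [h5, h6]
      · have h0 : G.par (x * G.t i) = false := by rw [G.par_mul, h1']; rfl
        have h4 : edgeAt N G (v, (⟨x, hx⟩ : {x : Λ // x ≠ 1})) i =
            .inr (v, ⟨x * G.t i, h0, h3⟩, i) := by
          unfold edgeAt
          rw [dif_neg h1, dif_neg h3]
        rw [h4]
        have h5 : (og2 N G).h (.inr (v, ⟨x * G.t i, h0, h3⟩, i)) =
            (v, (⟨x, hx⟩ : {x : Λ // x ≠ 1})) := by
          show (v, G.nx _ i) = _
          refine Prod.ext rfl (Subtype.ext ?_)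
          exact G.mul_mul x i
        have h6 : (og2 N G).t (.inr (v, ⟨x * G.t i, h0, h3⟩, i)) ≠
            (v, (⟨x, hx⟩ : {x : Λ // x ≠ 1})) := by
          intro h6
          have h7 : x * G.t i = x := congrArg (fun z => z.2.1) h6
          rw [h7, h1'] at h0
          exact absurd h0 (by decide)
        rw [cv, if_neg h6, if_pos h5, zero_sub]
        show - - cv O ψ v (N.eo v i) = _
        rw [neg_neg]
    rw [Finset.sum_congr rfl (fun i _ => h2 i), hsum]

/-- The flows of the substituted graph. -/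
theorem hasFlow2 (hl : ∀ e, O.t e ≠ O.h e) (S : Set A) (hS : ∀ a ∈ S, -a ∈ S) :
    HasFlow (og2 N G) A S ↔ HasFlow O A S := by
  classical
  rw [hasFlow_iff, hasFlow_iff]
  constructor
  · rintro ⟨ψ, h1, h2⟩
    exact ⟨fun e => ψ (.inl e), flow_down N G ψ h1, fun e => h2 _⟩
  · rintro ⟨ψ, h1, h2⟩
    refine ⟨_, flow_up N G ψ h1, ?_⟩
    rintro (e | ⟨v, y, i⟩)
    · exact h2 e
    · show - cv O ψ v (N.eo v i) ∈ S
      have h3 := N.mem v i
      rw [mem_ed] at h3
      unfold cv
      rcases h3 with h3 | h3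
      · have h4 : O.h (N.eo v i) ≠ v := fun h4 => hl _ (h3.trans h4.symm)
        rw [if_pos h3, if_neg h4, sub_zero]
        exact hS _ (h2 _)
      · have h4 : O.t (N.eo v i) ≠ v := fun h4 => hl _ (h4.trans h3.symm)
        rw [if_pos h3, if_neg h4, zero_sub, neg_neg]
        exact h2 _

end

/-- the admissible pairs of values -/
def Adm : Set (ℤ × ℤ) := {a | |a.1| ≤ 1 ∧ |a.2| ≤ 3 ∧ (a.1 = 0 → 2 ≤ |a.2|)}

theorem adm_neg (a : ℤ × ℤ) (h : a ∈ Adm) : -a ∈ Adm := by
  obtain ⟨h1, h2, h3⟩ := h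
  refine ⟨?_, ?_, ?_⟩
  · show |-a.1| ≤ 1
    rwa [abs_neg]
  · show |-a.2| ≤ 3
    rwa [abs_neg]
  · intro h4
    show 2 ≤ |-a.2|
    rw [abs_neg]
    apply h3
    have h5 : -a.1 = 0 := h4
    omega

theorem pair_iff' {V E : Type} [Fintype V] [Fintype E] [DecidableEq V] [DecidableEq E]
    (O : OrGraph V E) : (∃ φ₂ φ₄ : E → ℤ, O.IsHalfFlowPair φ₂ φ₄) ↔ HasFlow O (ℤ × ℤ) Adm := by
  constructor
  · rintro ⟨φ₂, φ₄, ⟨h1, h2⟩, ⟨h3, h4⟩, h5⟩
    refine ⟨fun e => (φ₂ e, φ₄ e), ?_, ?_⟩
    · intro v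
      have e2 := h2 v
      have e4 := h4 v
      refine Prod.ext ?_ ?_
      · rw [Prod.fst_sum, Prod.fst_sum]
        exact e2
      · rw [Prod.snd_sum, Prod.snd_sum]
        exact e4
    · intro e
      refine ⟨?_, ?_, h5 e⟩
      · have := h1 e
        push_cast at this
        show |φ₂ e| ≤ 1
        linarith
      · have := h3 e
        push_cast at this
        show |φ₄ e| ≤ 3
        linarith
  · rintro ⟨ψ, h1, h2⟩
    refine ⟨fun e => (ψ e).1, fun e => (ψ e).2, ⟨?_, ?_⟩, ⟨?_, ?_⟩, ?_⟩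
    · intro e
      have := (h2 e).1
      push_cast
      linarith
    · intro v
      have := congrArg Prod.fst (h1 v)
      rw [Prod.fst_sum, Prod.fst_sum] at this
      exact this
    · intro e
      have := (h2 e).2.1
      push_cast
      linarith
    · intro v
      have := congrArg Prod.snd (h1 v)
      rw [Prod.snd_sum, Prod.snd_sum] at this
      exact this
    · intro e
      exact (h2 e).2.2

end Pool.Agent.Q295.RG
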