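import Pool.Agent.Q295.RG.Girth

/-!
# The cubic Cayley graphs are 3-edge-connected
-/

set_option autoImplicit false

namespace Pool.Agent.Q295.RG

open Finset

section

variable {g : ℕ} {Λ : Type} [Group Λ] [Fintype Λ] [DecidableEq Λ] (G : Gad 3 g Λ)

/-- the cut of a set in the Cayley graph -/
def Gad.dc (X : Finset Λ) : Finset (Λ × Fin 3) :=
  univ.filter (fun p => p.1 ∈ X ∧ p.1 * G.t p.2 ∉ X)

/-- its size -/
def Gad.d (X : Finset Λ) : ℕ := (G.dc X).card

theorem Gad.submod (X Y : Finset Λ) : G.d (X ∩ Y) + G.d (X ∪ Y) ≤ G.d X + G.d Y := by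
  have key : ∀ Z : Finset Λ, G.d Z = ∑ p : Λ × Fin 3, if p.1 ∈ Z ∧ p.1 * G.t p.2 ∉ Z then 1 else 0 := by
    intro Z
    rw [Gad.d, Gad.dc, Finset.card_filter]
  rw [key, key, key, key, ← Finset.sum_add_distrib, ← Finset.sum_add_distrib]
  refine Finset.sum_le_sum fun p _ => ?_
  simp only [Finset.mem_inter, Finset.mem_union]
  by_cases h1 : p.1 ∈ X <;> by_cases h2 : p.1 ∈ Y <;> by_cases h3 : p.1 * G.t p.2 ∈ X <;>
    by_cases h4 : p.1 * G.t p.2 ∈ Y <;> simp [h1, h2, h3, h4]

theorem Gad.d_compl (X : Finset Λ) : G.d Xᶜ = G.d X := by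
  refine Finset.card_bij' (fun p _ => (p.1 * G.t p.2, p.2)) (fun p _ => (p.1 * G.t p.2, p.2))
    ?_ ?_ ?_ ?_
  · intro p hp
    rw [Gad.dc, Finset.mem_filter] at hp ⊢
    refine ⟨Finset.mem_univ _, ?_, ?_⟩
    · have := hp.2.2
      rw [Finset.mem_compl, not_not] at this
      exact this
    · show p.1 * G.t p.2 * G.t p.2 ∉ X
      rw [G.mul_mul]
      exact Finset.mem_compl.mp hp.2.1
  · intro p hp
    rw [Gad.dc, Finset.mem_filter] at hp ⊢
    refine ⟨Finset.mem_univ _, Finset.mem_compl.mpr hp.2.2, ?_⟩
    show p.1 * G.t p.2 * G.t p.2 ∉ Xᶜ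
    rw [G.mul_mul, Finset.mem_compl, not_not]
    exact hp.2.1
  · intro p _
    exact Prod.ext (G.mul_mul _ _) rfl
  · intro p _
    exact Prod.ext (G.mul_mul _ _) rfl

/-- a left translate -/
def tr (z : Λ) (X : Finset Λ) : Finset Λ := X.map ⟨fun x => z * x, mul_right_injective z⟩

omit [Fintype Λ] [DecidableEq Λ] in
theorem mem_tr (z y : Λ) (X : Finset Λ) : y ∈ tr z X ↔ z⁻¹ * y ∈ X := by
  rw [tr, Finset.mem_map]
  constructor
  · rintro ⟨x, hx, rfl⟩
    show z⁻¹ * (z * x) ∈ X
    rw [inv_mul_cancel_left]
    exact hx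
  · intro h
    exact ⟨z⁻¹ * y, h, mul_inv_cancel_left z y⟩

omit [Fintype Λ] [DecidableEq Λ] in
theorem card_tr (z : Λ) (X : Finset Λ) : (tr z X).card = X.card := Finset.card_map _

theorem Gad.d_tr (z : Λ) (X : Finset Λ) : G.d (tr z X) = G.d X := by
  refine Finset.card_bij' (fun p _ => (z⁻¹ * p.1, p.2)) (fun p _ => (z * p.1, p.2)) ?_ ?_ ?_ ?_
  · intro p hp
    rw [Gad.dc, Finset.mem_filter] at hp ⊢
    rw [mem_tr, mem_tr] at hp
    refine ⟨Finset.mem_univ _, hp.2.1, ?_⟩
    show z⁻¹ * p.1 * G.t p.2 ∉ X
    rw [mul_assoc]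
    exact hp.2.2
  · intro p hp
    rw [Gad.dc, Finset.mem_filter] at hp ⊢
    rw [mem_tr, mem_tr]
    refine ⟨Finset.mem_univ _, ?_, ?_⟩
    · show z⁻¹ * (z * p.1) ∈ X
      rw [inv_mul_cancel_left]
      exact hp.2.1
    · show z⁻¹ * (z * p.1 * G.t p.2) ∉ X
      rw [mul_assoc, inv_mul_cancel_left]
      exact hp.2.2
  · intro p _
    exact Prod.ext (mul_inv_cancel_left _ _) rfl
  · intro p _
    exact Prod.ext (inv_mul_cancel_left _ _) rfl

/-- the part of the cut with a given colour has the parity of the set -/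
theorem Gad.colour_parity (X : Finset Λ) (i : Fin 3) :
    ((G.dc X).filter (fun p => p.2 = i)).card % 2 = X.card % 2 := by
  -- the elements of `X` whose partner is in `X` come in pairs
  have h1 : (X.filter (fun x => x * G.t i ∈ X)).card % 2 = 0 := by
    have h2 : (X.filter (fun x => x * G.t i ∈ X)) =
        (X.filter (fun x => x * G.t i ∈ X ∧ G.par x = false)) ∪
          (X.filter (fun x => x * G.t i ∈ X ∧ G.par x = true)) := by
      ext x
      simp only [Finset.mem_filter, Finset.mem_union]
      cases G.par x <;> simp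
    have h3 : Disjoint (X.filter (fun x => x * G.t i ∈ X ∧ G.par x = false))
        (X.filter (fun x => x * G.t i ∈ X ∧ G.par x = true)) := by
      rw [Finset.disjoint_left]
      intro x hx hx'
      rw [Finset.mem_filter] at hx hx'
      have := hx.2.2
      rw [hx'.2.2] at this
      exact absurd this (by decide)
    have h4 : (X.filter (fun x => x * G.t i ∈ X ∧ G.par x = false)).card =
        (X.filter (fun x => x * G.t i ∈ X ∧ G.par x = true)).card := by
      refine Finset.card_bij' (fun x _ => x * G.t i) (fun x _ => x * G.t i) ?_ ?_ ?_ ?_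
      · intro x hx
        rw [Finset.mem_filter] at hx ⊢
        refine ⟨hx.2.1, ?_, ?_⟩
        · rw [G.mul_mul]; exact hx.1
        · rw [G.par_mul, hx.2.2]; rfl
      · intro x hx
        rw [Finset.mem_filter] at hx ⊢
        refine ⟨hx.2.1, ?_, ?_⟩
        · rw [G.mul_mul]; exact hx.1
        · rw [G.par_mul, hx.2.2]; rfl
      · intro x _
        exact G.mul_mul _ _
      · intro x _
        exact G.mul_mul _ _
    rw [h2, Finset.card_union_of_disjoint h3, h4]
    omega
  have h5 : ((G.dc X).filter (fun p => p.2 = i)).card = (X.filter (fun x => x * G.t i ∉ X)).card := by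
    refine Finset.card_bij' (fun p _ => p.1) (fun x _ => (x, i)) ?_ ?_ ?_ ?_
    · intro p hp
      rw [Finset.mem_filter, Gad.dc, Finset.mem_filter] at hp
      rw [Finset.mem_filter]
      obtain ⟨⟨-, h6, h7⟩, h8⟩ := hp
      rw [h8] at h7
      exact ⟨h6, h7⟩
    · intro x hx
      rw [Finset.mem_filter] at hx
      rw [Finset.mem_filter, Gad.dc, Finset.mem_filter]
      exact ⟨⟨Finset.mem_univ _, hx.1, hx.2⟩, rfl⟩
    · intro p hp
      rw [Finset.mem_filter] at hp
      exact Prod.ext rfl hp.2.symm
    · intro x _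
      rfl
  have h6 := Finset.card_filter_add_card_filter_not (s := X) (fun x => x * G.t i ∈ X)
  rw [h5]
  omega

theorem Gad.d_eq_sum (X : Finset Λ) :
    G.d X = ∑ i : Fin 3, ((G.dc X).filter (fun p => p.2 = i)).card :=
  Finset.card_eq_sum_card_fiberwise (f := fun p : Λ × Fin 3 => p.2) (t := Finset.univ)
    (fun _ _ => Finset.mem_coe.mpr (Finset.mem_univ _))

/-- no cuts with fewer than two edges -/
theorem Gad.two_le (X : Finset Λ) (h1 : X.Nonempty) (h2 : X ≠ univ) : 2 ≤ G.d X := by
  have h3 : 1 ≤ G.d X := by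
    by_contra h4
    have h5 : G.dc X = ∅ := by
      rw [← Finset.card_eq_zero]
      show G.d X = 0
      omega
    have h6 : ∀ x ∈ X, ∀ i, x * G.t i ∈ X := by
      intro x hx i
      by_contra h7
      have : (x, i) ∈ G.dc X := by
        rw [Gad.dc, Finset.mem_filter]
        exact ⟨Finset.mem_univ _, hx, h7⟩
      rw [h5] at this
      exact absurd this (Finset.notMem_empty _)
    have h7 : ∀ y : Λ, ∀ x ∈ X, x * y ∈ X := by
      intro y
      have hy : y ∈ Subgroup.closure (Set.range G.t) := by rw [G.gen]; trivial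
      induction hy using Subgroup.closure_induction with
      | mem y hy =>
        obtain ⟨i, rfl⟩ := hy
        intro x hx
        exact h6 x hx i
      | one =>
        intro x hx
        rw [mul_one]; exact hx
      | mul a b _ _ h8 h9 =>
        intro x hx
        rw [← mul_assoc]
        exact h9 _ (h8 _ hx)
      | inv a _ h8 =>
        intro x hx
        -- a finite group: the inverse is a power
        have h9 : ∀ n : ℕ, x * a ^ n ∈ X := by
          intro n
          induction n with
          | zero => rw [pow_zero, mul_one]; exact hx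
          | succ n ih =>
            rw [pow_succ, ← mul_assoc]
            exact h8 _ ih
        have h10 : a⁻¹ = a ^ (Fintype.card Λ - 1) := by
          have h11 : a ^ (Fintype.card Λ - 1) * a = 1 := by
            rw [← pow_succ, Nat.sub_add_cancel Fintype.card_pos, pow_card_eq_one]
          exact (eq_inv_of_mul_eq_one_left h11).symm
        rw [h10]
        exact h9 _
    apply h2
    obtain ⟨x, hx⟩ := h1
    ext y
    simp only [Finset.mem_univ, iff_true]
    have := h7 (x⁻¹ * y) x hx
    rwa [mul_inv_cancel_left] at this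
  have h4 := G.d_eq_sum X
  rw [Fin.sum_univ_three] at h4
  have p0 := G.colour_parity X 0
  have p1 := G.colour_parity X 1
  have p2 := G.colour_parity X 2
  omega

/-- no cuts with fewer than three edges -/
theorem Gad.three_le (hg : 2 ≤ g) (X : Finset Λ) (h1 : X.Nonempty) (h2 : X ≠ univ) :
    3 ≤ G.d X := by
  by_contra hX
  -- a counterexample of the least size
  obtain ⟨n, hn⟩ : ∃ n, n = X.card := ⟨_, rfl⟩
  induction n using Nat.strong_induction_on generalizing X with
  | _ n ih =>
    have hmin : ∀ Y : Finset Λ, Y.Nonempty → Y ≠ univ → Y.card < X.card → 3 ≤ G.d Y := by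
      intro Y hY1 hY2 hY3
      by_contra hY4
      exact ih Y.card (by omega) Y hY1 hY2 hY4 rfl
    have hcompl : X.card ≤ Xᶜ.card := by
      by_contra h3
      have h4 := hmin Xᶜ (by
        rw [Finset.nonempty_iff_ne_empty]
        intro h5
        exact h2 (by rwa [Finset.compl_eq_empty_iff] at h5)) (by
        intro h5
        rw [Finset.compl_eq_univ_iff] at h5
        exact h1.ne_empty h5) (by omega)
      rw [G.d_compl] at h4
      exact hX h4
    have hcard : X.card + Xᶜ.card = Fintype.card Λ := by
      rw [Finset.card_compl]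
      have := Finset.card_le_univ X
      omega
    -- the translates are equal or disjoint
    have htr : ∀ z : Λ, (X ∩ tr z X).Nonempty → tr z X = X := by
      intro z hz
      by_contra hne
      have h3 : (X ∩ tr z X).card < X.card := by
        refine Finset.card_lt_card ⟨Finset.inter_subset_left, fun h4 => hne ?_⟩
        have h5 : X ⊆ tr z X := fun x hx => (Finset.mem_inter.mp (h4 hx)).2
        exact (Finset.eq_of_subset_of_card_le h5 (card_tr z X).le).symm
      have h4 := hmin _ hz (by
        intro h5
        apply h2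
        rw [← Finset.univ_subset_iff, ← h5]
        exact Finset.inter_subset_left) h3
      have h5 := G.submod X (tr z X)
      rw [G.d_tr] at h5
      have h6 : (X ∪ tr z X) ≠ univ := by
        intro h7
        have h8 := Finset.card_union_add_card_inter X (tr z X)
        rw [h7, card_tr, Finset.card_univ] at h8
        have h9 : 0 < (X ∩ tr z X).card := Finset.card_pos.mpr hz
        omega
      have h7 := G.two_le (X ∪ tr z X) (h1.mono Finset.subset_union_left) h6
      omega
    -- a coset of a subgroup
    obtain ⟨x₀, hx₀⟩ := h1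
    have hK : ∀ a ∈ X, ∀ b ∈ X, ∀ c ∈ X, a * b⁻¹ * c ∈ X := by
      intro a ha b hb c hc
      have h3 := htr (a * b⁻¹) ⟨a, by
        rw [Finset.mem_inter, mem_tr]
        refine ⟨ha, ?_⟩
        have : (a * b⁻¹)⁻¹ * a = b := by group
        rw [this]; exact hb⟩
      rw [← h3, mem_tr, inv_mul_cancel_left]
      exact hc
    -- the generators which leave `X`
    have hgen : ∀ i, (x₀ * G.t i ∈ X) → ∀ x ∈ X, x * G.t i ∈ X := by
      intro i hi x hx
      have := hK x hx x₀ hx₀ _ hi
      rwa [mul_assoc, inv_mul_cancel_left] at this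
    have hgen' : ∀ i, (x₀ * G.t i ∉ X) → ∀ x ∈ X, x * G.t i ∉ X := by
      intro i hi x hx h3
      apply hi
      have := hK x₀ hx₀ x hx _ h3
      rwa [mul_assoc, inv_mul_cancel_left] at this
    have hcount : ∀ i, ((G.dc X).filter (fun p => p.2 = i)).card =
        if x₀ * G.t i ∈ X then 0 else X.card := by
      intro i
      split_ifs with h3
      · rw [Finset.card_eq_zero, Finset.filter_eq_empty_iff]
        intro p hp hpi
        rw [Gad.dc, Finset.mem_filter] at hp
        apply hp.2.2
        rw [hpi]
        exact hgen i h3 _ hp.2.1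
      · refine Finset.card_bij' (fun p _ => p.1) (fun x _ => (x, i)) ?_ ?_ ?_ ?_
        · intro p hp
          rw [Finset.mem_filter, Gad.dc, Finset.mem_filter] at hp
          exact hp.1.2.1
        · intro x hx
          rw [Finset.mem_filter, Gad.dc, Finset.mem_filter]
          exact ⟨⟨Finset.mem_univ _, hx, hgen' i h3 x hx⟩, rfl⟩
        · intro p hp
          rw [Finset.mem_filter] at hp
          exact Prod.ext rfl hp.2.symm
        · intro x _
          rfl
    have hsum := G.d_eq_sum X
    rw [Fin.sum_univ_three, hcount 0, hcount 1, hcount 2] at hsum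
    have hpos : 1 ≤ X.card := Finset.card_pos.mpr ⟨x₀, hx₀⟩
    have hne : ∀ i j : Fin 3, i ≠ j → x₀ * G.t i ≠ x₀ * G.t j := by
      intro i j hij h3
      exact hij (port_inj G hg (mul_left_cancel h3))
    have hne1 : ∀ i : Fin 3, x₀ ≠ x₀ * G.t i := by
      intro i h3
      have h4 : G.t i = 1 := by
        have : x₀ * G.t i = x₀ * 1 := by rw [mul_one]; exact h3.symm
        exact mul_left_cancel this
      exact G.ne_one (G.par_t i) h4
    have h2card : ∀ i : Fin 3, x₀ * G.t i ∈ X → 2 ≤ X.card := by
      intro i hi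
      have : ({x₀, x₀ * G.t i} : Finset Λ) ⊆ X := by
        intro y hy
        simp only [Finset.mem_insert, Finset.mem_singleton] at hy
        rcases hy with rfl | rfl
        · exact hx₀
        · exact hi
      have h3 := Finset.card_le_card this
      rwa [Finset.card_pair (hne1 i)] at h3
    have h3card : ∀ i j : Fin 3, i ≠ j → x₀ * G.t i ∈ X → x₀ * G.t j ∈ X → 3 ≤ X.card := by
      intro i j hij hi hj
      have : ({x₀, x₀ * G.t i, x₀ * G.t j} : Finset Λ) ⊆ X := by
        intro y hy
        simp only [Finset.mem_insert, Finset.mem_singleton] at hy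
        rcases hy with rfl | rfl | rfl
        · exact hx₀
        · exact hi
        · exact hj
      have h3 := Finset.card_le_card this
      rwa [Finset.card_eq_three.mpr ⟨_, _, _, hne1 i, hne1 j, hne i j hij, rfl⟩] at h3
    have hd1 := G.two_le X ⟨x₀, hx₀⟩ h2
    by_cases c0 : x₀ * G.t 0 ∈ X <;> by_cases c1 : x₀ * G.t 1 ∈ X <;>
      by_cases c2 : x₀ * G.t 2 ∈ X
    · simp only [c0, c1, c2, if_true] at hsum; omega
    · have := h3card 0 1 (by decide) c0 c1
      simp only [c0, c1, c2, if_true, if_false] at hsum; omega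
    · have := h3card 0 2 (by decide) c0 c2
      simp only [c0, c1, c2, if_true, if_false] at hsum; omega
    · have := h2card 0 c0
      simp only [c0, c1, c2, if_true, if_false] at hsum; omega
    · have := h3card 1 2 (by decide) c1 c2
      simp only [c0, c1, c2, if_true, if_false] at hsum; omega
    · have := h2card 1 c1
      simp only [c0, c1, c2, if_true, if_false] at hsum; omega
    · have := h2card 2 c2
      simp only [c0, c1, c2, if_true, if_false] at hsum; omega
    · simp only [c0, c1, c2, if_false] at hsum; omega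

end

end Pool.Agent.Q295.RG
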