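import Pool.Agent.Q295.RG.Sub

/-!
# The substituted graph: girth, parity, connectivity
-/

set_option autoImplicit false

namespace Pool.Agent.Q295.RG

section

variable {r g : ℕ} {V E : Type} {ends : E → Sym2 V} (N : Num r ends) {Λ : Type} [Group Λ]
  (G : Gad r g Λ)

/-- an edge at a port -/
theorem outer_end {e : E} {p : V × {x : Λ // x ≠ 1}} (h : p ∈ ends2 N G (.inl e)) :
    p.1 ∈ ends e ∧ p.2.1 = G.t (N.num p.1 e) ∧ (.inl e : E2 V E G) = edgeAt N G p (N.num p.1 e) := by
  classical
  obtain ⟨v, x, hx⟩ := p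
  have h' : (v, (⟨x, hx⟩ : {x : Λ // x ≠ 1})) ∈
      (ends e).map (fun v => (v, G.port (N.num v e))) := h
  rw [Sym2.mem_map] at h'
  obtain ⟨u, hu, huv⟩ := h'
  rw [Prod.mk.injEq] at huv
  obtain ⟨rfl, h2⟩ := huv
  have h3 : G.t (N.num u e) = x := congrArg Subtype.val h2
  refine ⟨hu, h3.symm, ?_⟩
  unfold edgeAt
  have h4 : ¬ G.par x = false := by
    rw [← h3, G.par_t]
    decide
  have h5 : x * G.t (N.num u e) = 1 := by rw [← h3, G.sq]
  rw [dif_neg h4, dif_pos h5, N.eo_num u e hu]

/-- an edge inside -/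
theorem inner_ends {u : V} {y : G.Ev} {i : Fin r} {p q : V × {x : Λ // x ≠ 1}}
    (h : ends2 N G (.inr (u, y, i)) = s(p, q)) :
    p.1 = u ∧ q.1 = u ∧ q.2.1 = p.2.1 * G.t i ∧ (.inr (u, y, i) : E2 V E G) = edgeAt N G p i ∧
      (.inr (u, y, i) : E2 V E G) = edgeAt N G q i := by
  classical
  have h' : s((u, (⟨y.1, y.2.2⟩ : {x : Λ // x ≠ 1})), (u, G.nx y i)) = s(p, q) := h
  have key1 : (.inr (u, y, i) : E2 V E G) = edgeAt N G (u, (⟨y.1, y.2.2⟩ : {x : Λ // x ≠ 1})) i := by
    unfold edgeAt
    rw [dif_pos y.2.1]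
  have key2 : (.inr (u, y, i) : E2 V E G) = edgeAt N G (u, G.nx y i) i := by
    have h5 : (G.nx y i).1 * G.t i = y.1 := G.mul_mul _ _
    unfold edgeAt
    have h4 : ¬ G.par (G.nx y i).1 = false := by
      rw [show G.par (G.nx y i).1 = true from G.par_nx y i]; decide
    have h6 : ¬ (G.nx y i).1 * G.t i = 1 := by rw [h5]; exact y.2.2
    rw [dif_neg h4, dif_neg h6]
    congr 1
    exact Prod.ext rfl (Prod.ext (Subtype.ext h5.symm) rfl)
  rw [Sym2.eq_iff] at h'
  rcases h' with ⟨rfl, rfl⟩ | ⟨rfl, rfl⟩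
  · exact ⟨rfl, rfl, rfl, key1, key2⟩
  · exact ⟨rfl, rfl, (G.mul_mul _ _).symm, key2, key1⟩

/-- There is no short closed walk which never goes back the edge it came from. -/
theorem no_short {l : ℕ} (hl : 1 ≤ l) (hlg : l < g) (v : ℕ → V × {x : Λ // x ≠ 1})
    (e : ℕ → E2 V E G) (h1 : ∀ n, ends2 N G (e n) = s(v n, v (n + 1)))
    (h2 : ∀ n, e n ≠ e (n + 1)) (hv : ∀ n, v (n + l) = v n) (he : ∀ n, e (n + l) = e n) :
    False := by
  classical
  have hc : ∀ n, ∃ i, e n = edgeAt N G (v (n + 1)) i := by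
    intro n
    apply (mem_iff N G _ _).mp
    rw [h1]
    exact Sym2.mem_mk_right _ _
  have hd : ∀ n, ∃ i, e n = edgeAt N G (v n) i := by
    intro n
    apply (mem_iff N G _ _).mp
    rw [h1]
    exact Sym2.mem_mk_left _ _
  choose c hc using hc
  choose d hd using hd
  have hcd : ∀ n, d (n + 1) ≠ c n := by
    intro n hh
    apply h2 n
    rw [hd (n + 1), hc n, hh]
  have hin : ∀ n, (∀ a, e n ≠ .inl a) →
      d n = c n ∧ (v (n + 1)).2.1 = (v n).2.1 * G.t (c n) := by
    intro n hn
    rcases hen : e n with a | ⟨u, y, i⟩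
    · exact absurd hen (hn a)
    · have h3 := h1 n
      rw [hen] at h3
      obtain ⟨-, -, h4, h5, h6⟩ := inner_ends N G h3
      have h7 : i = c n := by
        apply edgeAt_inj N G (v (n + 1))
        rw [← h6, ← hc n, hen]
      have h8 : i = d n := by
        apply edgeAt_inj N G (v n)
        rw [← h5, ← hd n, hen]
      refine ⟨by rw [← h7, h8], ?_⟩
      rw [← h7]
      exact h4
  have hout : ∀ n a, e n = .inl a → (v (n + 1)).2.1 = G.t (c n) ∧ (v n).2.1 = G.t (d n) := by
    intro n a hn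
    have h3 := h1 n
    have m1 : v n ∈ ends2 N G (.inl a) := by
      rw [← hn, h3]; exact Sym2.mem_mk_left _ _
    have m2 : v (n + 1) ∈ ends2 N G (.inl a) := by
      rw [← hn, h3]; exact Sym2.mem_mk_right _ _
    obtain ⟨-, h4, h5⟩ := outer_end N G m1
    obtain ⟨-, h6, h7⟩ := outer_end N G m2
    have h8 : N.num (v (n + 1)).1 a = c n := by
      apply edgeAt_inj N G (v (n + 1))
      rw [← h7, ← hc n, hn]
    have h9 : N.num (v n).1 a = d n := by
      apply edgeAt_inj N G (v n)
      rw [← h5, ← hd n, hn]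
    rw [h8] at h6
    rw [h9] at h4
    exact ⟨h6, h4⟩
  by_cases hall : ∀ n a, e n ≠ .inl a
  · -- all edges are inside
    have hst : ∀ n, ∃ w : List (Fin r), (c n :: w).length = n + 1 ∧ (c n :: w).IsChain (· ≠ ·) ∧
        ((c n :: w).map G.t).prod = ((v (n + 1)).2.1)⁻¹ * (v 0).2.1 := by
      intro n
      induction n with
      | zero =>
        refine ⟨[], rfl, List.isChain_singleton _, ?_⟩
        obtain ⟨-, h3⟩ := hin 0 (hall 0)
        rw [h3]
        simp only [List.map_cons, List.map_nil, List.prod_cons, List.prod_nil, mul_one]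
        rw [mul_inv_rev, mul_assoc, inv_mul_cancel, mul_one]
        exact eq_inv_of_mul_eq_one_left (G.sq _)
      | succ n ih =>
        obtain ⟨w, hw1, hw2, hw3⟩ := ih
        obtain ⟨h3, h4⟩ := hin (n + 1) (hall (n + 1))
        refine ⟨c n :: w, by rw [List.length_cons, hw1], ?_, ?_⟩
        · rw [List.isChain_cons_cons]
          exact ⟨by rw [← h3]; exact hcd n, hw2⟩
        · rw [List.map_cons, List.prod_cons, hw3, h4, mul_inv_rev, mul_assoc]
          congr 1
          exact eq_inv_of_mul_eq_one_left (G.sq _)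
    obtain ⟨w, hw1, hw2, hw3⟩ := hst (l - 1)
    have h3 : l - 1 + 1 = 0 + l := by omega
    rw [h3, hv 0, inv_mul_cancel] at hw3
    refine G.word _ (by simp) ?_ hw2 hw3
    rw [hw1]; omega
  · push Not at hall
    obtain ⟨j, a, hja⟩ := hall
    have hst : ∀ m, m + 1 < g → ∃ w : List (Fin r), (c (j + m) :: w).length = m + 1 ∧
        (c (j + m) :: w).IsChain (· ≠ ·) ∧
        ((c (j + m) :: w).map G.t).prod = ((v (j + m + 1)).2.1)⁻¹ ∧
        (∀ b, e (j + m + 1) ≠ .inl b) := by
      intro m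
      induction m with
      | zero =>
        intro hm
        have hw3 : ([c j].map G.t).prod = ((v (j + 1)).2.1)⁻¹ := by
          rw [(hout j a hja).1]
          simp only [List.map_cons, List.map_nil, List.prod_cons, List.prod_nil, mul_one]
          exact eq_inv_of_mul_eq_one_left (G.sq _)
        refine ⟨[], rfl, List.isChain_singleton _, hw3, ?_⟩
        intro b hb
        obtain ⟨-, h4⟩ := hout _ b hb
        refine G.word [d (j + 1), c j] (by simp) (by simp only [List.length_cons, List.length_nil]; omega) ?_ ?_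
        · rw [List.isChain_cons_cons]
          exact ⟨hcd j, List.isChain_singleton _⟩
        · rw [List.map_cons, List.prod_cons, hw3]
          rw [show (v (j + 1)).2.1 = G.t (d (j + 1)) from h4]
          exact mul_inv_cancel _
      | succ m ih =>
        intro hm
        obtain ⟨w, hw1, hw2, hw3, hw4⟩ := ih (by omega)
        obtain ⟨h3, h4⟩ := hin (j + m + 1) hw4
        have k1 : (c (j + m + 1) :: c (j + m) :: w).IsChain (· ≠ ·) := by
          rw [List.isChain_cons_cons]
          exact ⟨by rw [← h3]; exact hcd (j + m), hw2⟩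
        have k2 : ((c (j + m + 1) :: c (j + m) :: w).map G.t).prod =
            ((v (j + m + 1 + 1)).2.1)⁻¹ := by
          rw [List.map_cons, List.prod_cons, hw3, h4, mul_inv_rev]
          congr 1
          exact eq_inv_of_mul_eq_one_left (G.sq _)
        refine ⟨c (j + m) :: w, by rw [List.length_cons, hw1], k1, k2, ?_⟩
        intro b hb
        have hb' : e (j + m + 1 + 1) = .inl b := hb
        obtain ⟨-, h5⟩ := hout _ b hb'
        refine G.word (d (j + m + 1 + 1) :: c (j + m + 1) :: c (j + m) :: w) (by simp) ?_ ?_ ?_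
        · simp only [List.length_cons] at hw1 ⊢
          omega
        · rw [List.isChain_cons_cons]
          exact ⟨hcd _, k1⟩
        · rw [List.map_cons, List.prod_cons, k2, h5]
          exact mul_inv_cancel _
    obtain ⟨w, -, -, -, hw4⟩ := hst (l - 1) (by omega)
    have h3 : j + (l - 1) + 1 = j + l := by omega
    rw [h3, he j] at hw4
    exact hw4 a hja

theorem girth2 : GirthGe g (ends2 N G) := by
  rintro l hl hlg ⟨v, e, hv, he, h⟩
  haveI : NeZero l := ⟨by omega⟩
  refine no_short N G (l := l) (by omega) hlg (fun n => v (n : ZMod l)) (fun n => e (n : ZMod l))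
    ?_ ?_ ?_ ?_
  · intro n
    show ends2 N G (e (n : ZMod l)) = _
    rw [h]
    push_cast
    rfl
  · intro n hn
    have h1 := he hn
    push_cast at h1
    have h2 : (1 : ZMod l) = 0 := by
      have h3 : (n : ZMod l) + 1 = (n : ZMod l) + 0 := by rw [add_zero]; exact h1.symm
      exact add_left_cancel h3
    haveI : Fact (1 < l) := ⟨by omega⟩
    exact one_ne_zero h2
  · intro n
    show v ((n + l : ℕ) : ZMod l) = _
    push_cast
    rw [ZMod.natCast_self, add_zero]
  · intro n
    show e ((n + l : ℕ) : ZMod l) = _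
    push_cast
    rw [ZMod.natCast_self, add_zero]

/-- every edge inside joins vertices of different parity -/
theorem parity2 (f : E2 V E G) (hf : f ∉ Set.range (Sum.inl : E → E2 V E G)) :
    ∃ a : V × {x : Λ // x ≠ 1}, a ∈ {p : V × {x : Λ // x ≠ 1} | G.par p.2.1 = false} ∧
      ∃ b : V × {x : Λ // x ≠ 1}, b ∉ {p : V × {x : Λ // x ≠ 1} | G.par p.2.1 = false} ∧
        ends2 N G f = s(a, b) := by
  rcases f with e | ⟨u, y, i⟩
  · exact absurd ⟨e, rfl⟩ hf
  · refine ⟨_, ?_, _, ?_, rfl⟩
    · exact y.2.1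
    · intro h
      have h1 : G.par (y.1 * G.t i) = false := h
      rw [G.par_nx] at h1
      exact absurd h1 (by decide)

theorem port_inj (hg : 2 ≤ g) : Function.Injective G.t := by
  intro i j h
  by_contra hne
  refine G.word [i, j] (by simp) (by simpa using hg) ?_ ?_
  · rw [List.isChain_cons_cons]
    exact ⟨hne, List.isChain_singleton _⟩
  · simp only [List.map_cons, List.map_nil, List.prod_cons, List.prod_nil, mul_one]
    rw [h, G.sq]

/-- the edges outside form a matching -/
theorem matching2 (hg : 2 ≤ g) (p : V × {x : Λ // x ≠ 1}) (e f : E)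
    (he : p ∈ ends2 N G (.inl e)) (hf : p ∈ ends2 N G (.inl f)) : e = f := by
  obtain ⟨h1, h2, -⟩ := outer_end N G he
  obtain ⟨h3, h4, -⟩ := outer_end N G hf
  have h5 : N.num p.1 e = N.num p.1 f := port_inj G hg (by rw [← h2, ← h4])
  rw [← N.eo_num p.1 e h1, h5, N.eo_num p.1 f h3]

/-- the Cayley graph -/
def Cay : SimpleGraph Λ where
  Adj x y := ∃ i, y = x * G.t i
  symm := ⟨by
    rintro x y ⟨i, rfl⟩
    exact ⟨i, (G.mul_mul _ _).symm⟩⟩
  loopless := ⟨by
    rintro x ⟨i, h⟩
    have h1 := G.par_mul x i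
    rw [← h] at h1
    cases hh : G.par x <;> rw [hh] at h1 <;> exact absurd h1 (by decide)⟩

theorem cay_conn : (Cay G).Connected := by
  have h1 : ∀ x : Λ, ∀ z : Λ, (Cay G).Reachable z (z * x) := by
    intro x
    have hx : x ∈ Subgroup.closure (Set.range G.t) := by rw [G.gen]; trivial
    induction hx using Subgroup.closure_induction with
    | mem x hx =>
      obtain ⟨i, rfl⟩ := hx
      intro z
      exact SimpleGraph.Adj.reachable ⟨i, rfl⟩
    | one =>
      intro z
      rw [mul_one]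
    | mul x y _ _ h2 h3 =>
      intro z
      rw [← mul_assoc]
      exact (h2 z).trans (h3 _)
    | inv x _ h2 =>
      intro z
      have h3 := h2 (z * x⁻¹)
      rw [inv_mul_cancel_right] at h3
      exact h3.symm
  haveI : Nonempty Λ := ⟨1⟩
  refine ⟨fun x y => ?_⟩
  have h2 := h1 (x⁻¹ * y) x
  rw [mul_inv_cancel_left] at h2
  exact h2

/-- The vertices of one gadget are connected with each other. -/
theorem gadget_conn [Finite Λ] (v : V) (x y : {x : Λ // x ≠ 1}) :
    Relation.ReflTransGen (fun a b => ∃ e, ends2 N G e = s(a, b)) (v, x) (v, y) := by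
  classical
  haveI : Nontrivial Λ := ⟨x.1, 1, x.2⟩
  obtain ⟨z, hz⟩ := (cay_conn G).exists_connected_induce_compl_singleton_of_finite_nontrivial
  have hmem : ∀ w : {x : Λ // x ≠ 1}, z * w.1 ∈ ({z}ᶜ : Set Λ) := by
    intro w hw
    have hw' : z * w.1 = z := hw
    exact w.2 (by simpa using hw')
  have h1 := hz.preconnected ⟨z * x.1, hmem x⟩ ⟨z * y.1, hmem y⟩
  rw [SimpleGraph.reachable_iff_reflTransGen] at h1
  have hne : ∀ w : ({z}ᶜ : Set Λ), z⁻¹ * w.1 ≠ 1 := by
    intro w hw
    apply w.2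
    show w.1 = z
    exact (inv_mul_eq_one.mp hw).symm
  have h2 := Relation.ReflTransGen.lift (p := fun a b => ∃ e, ends2 N G e = s(a, b))
    (fun w : ({z}ᶜ : Set Λ) => (v, (⟨z⁻¹ * w.1, hne w⟩ : {x : Λ // x ≠ 1}))) ?_ _ _ h1
  · have h3 : (⟨z⁻¹ * (z * x.1), hne ⟨z * x.1, hmem x⟩⟩ : {x : Λ // x ≠ 1}) = x :=
      Subtype.ext (inv_mul_cancel_left z x.1)
    have h4 : (⟨z⁻¹ * (z * y.1), hne ⟨z * y.1, hmem y⟩⟩ : {x : Λ // x ≠ 1}) = y :=
      Subtype.ext (inv_mul_cancel_left z y.1)
    have h2' : Relation.ReflTransGen (fun a b => ∃ e, ends2 N G e = s(a, b))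
      (v, (⟨z⁻¹ * (z * x.1), hne ⟨z * x.1, hmem x⟩⟩ : {x : Λ // x ≠ 1}))
      (v, (⟨z⁻¹ * (z * y.1), hne ⟨z * y.1, hmem y⟩⟩ : {x : Λ // x ≠ 1})) := h2
    rw [h3, h4] at h2'
    exact h2'
  · rintro a b ⟨i, hi⟩
    have hi' : b.1 = a.1 * G.t i := hi
    have h5 : z⁻¹ * b.1 = z⁻¹ * a.1 * G.t i := by rw [hi', mul_assoc]
    have h5' : z⁻¹ * b.1 * G.t i = z⁻¹ * a.1 := by rw [h5, G.mul_mul]
    show ∃ e, ends2 N G e = s((v, (⟨z⁻¹ * a.1, hne a⟩ : {x : Λ // x ≠ 1})),
      (v, (⟨z⁻¹ * b.1, hne b⟩ : {x : Λ // x ≠ 1})))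
    by_cases h6 : G.par (z⁻¹ * a.1) = false
    · refine ⟨.inr (v, ⟨z⁻¹ * a.1, h6, hne a⟩, i), ?_⟩
      have e1 : G.nx ⟨z⁻¹ * a.1, h6, hne a⟩ i = ⟨z⁻¹ * b.1, hne b⟩ := Subtype.ext h5.symm
      show s((v, (⟨z⁻¹ * a.1, hne a⟩ : {x : Λ // x ≠ 1})), (v, G.nx ⟨z⁻¹ * a.1, h6, hne a⟩ i)) = _
      rw [e1]
    · have h7 : G.par (z⁻¹ * b.1) = false := by
        rw [h5, G.par_mul]
        cases hh : G.par (z⁻¹ * a.1)
        · exact absurd hh h6
        · rfl
      refine ⟨.inr (v, ⟨z⁻¹ * b.1, h7, hne b⟩, i), ?_⟩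
      have e1 : G.nx ⟨z⁻¹ * b.1, h7, hne b⟩ i = ⟨z⁻¹ * a.1, hne a⟩ := Subtype.ext h5'
      show s((v, (⟨z⁻¹ * b.1, hne b⟩ : {x : Λ // x ≠ 1})), (v, G.nx ⟨z⁻¹ * b.1, h7, hne b⟩ i)) = _
      rw [e1]
      exact Sym2.eq_swap

theorem conn2 [Finite Λ] (h : Conn ends) : Conn (ends2 N G) := by
  rintro ⟨u, x⟩ ⟨w, y⟩
  have key : ∀ w, ∃ y, Relation.ReflTransGen (fun a b => ∃ e, ends2 N G e = s(a, b))
      (u, x) (w, y) := by
    intro w
    have h1 := h u w
    induction h1 with
    | refl => exact ⟨x, Relation.ReflTransGen.refl⟩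
    | tail _ h2 ih =>
      rename_i a b hab
      obtain ⟨y, hy⟩ := ih
      obtain ⟨e, he⟩ := h2
      refine ⟨G.port (N.num b e), hy.trans ((gadget_conn N G _ y (G.port (N.num a e))).tail
        ⟨.inl e, ?_⟩)⟩
      show (ends e).map _ = _
      rw [he, Sym2.map_mk]
  obtain ⟨y', hy'⟩ := key w
  exact hy'.trans (gadget_conn N G _ y' y)

/-- Different edges outside are far apart. -/
theorem far2 (n : ℕ) (hn : n + 2 ≤ g) : ∀ (e f : E), e ≠ f →
    ∀ p : ℕ → V × {x : Λ // x ≠ 1}, p 0 ∈ ends2 N G (.inl e) → p n ∈ ends2 N G (.inl f) →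
    (∀ i < n, ∃ h, ends2 N G h = s(p i, p (i + 1))) → False := by
  classical
  induction n using Nat.strong_induction_on with
  | _ n ih =>
    intro e f hef p h0 hn' hp
    -- no edge outside
    have hin : ∀ i < n, ∀ h, ends2 N G h = s(p i, p (i + 1)) → ∀ a, h ≠ .inl a := by
      intro i hi h hh a ha
      rw [ha] at hh
      by_cases hea : e = a
      · rw [← hea] at hh
        refine ih (n - (i + 1)) (by omega) (by omega) e f hef (fun j => p (i + 1 + j)) ?_ ?_ ?_
        · show p (i + 1) ∈ _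
          rw [hh]
          exact Sym2.mem_mk_right _ _
        · show p (i + 1 + (n - (i + 1))) ∈ _
          rw [show i + 1 + (n - (i + 1)) = n by omega]
          exact hn'
        · intro j hj
          exact hp (i + 1 + j) (by omega)
      · refine ih i hi (by omega) e a hea p h0 ?_ ?_
        · rw [hh]
          exact Sym2.mem_mk_left _ _
        · intro j hj
          exact hp j (by omega)
    -- colours
    have hc : ∀ i, ∃ c : Fin r, i < n → ∃ h, h = edgeAt N G (p i) c ∧
        h = edgeAt N G (p (i + 1)) c ∧ (p (i + 1)).2.1 = (p i).2.1 * G.t c ∧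
        (p (i + 1)).1 = (p i).1 ∧ (∀ a, h ≠ .inl a) ∧ ends2 N G h = s(p i, p (i + 1)) := by
      intro i
      by_cases hi : i < n
      · obtain ⟨h, hh⟩ := hp i hi
        have h1 := hin i hi h hh
        rcases h with a | ⟨u, y, c⟩
        · exact absurd rfl (h1 a)
        · obtain ⟨h2, h3, h4, h5, h6⟩ := inner_ends N G hh
          exact ⟨c, fun _ => ⟨_, h5, h6, h4, by rw [h2, h3], h1, hh⟩⟩
      · exact ⟨N.num (p 0).1 e, fun h => absurd h hi⟩
    choose c hc using hc
    obtain ⟨a1, a2, a3⟩ := outer_end N G h0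
    obtain ⟨b1, b2, b3⟩ := outer_end N G hn'
    have hfst : ∀ m, m ≤ n → (p m).1 = (p 0).1 := by
      intro m
      induction m with
      | zero => intro _; rfl
      | succ m ihm =>
        intro hm
        obtain ⟨h, -, -, -, h4, -, -⟩ := hc m (by omega)
        rw [h4, ihm (by omega)]
    -- no turning back
    have hred : ∀ i, i + 1 < n → c (i + 1) ≠ c i := by
      intro i hi hcc
      obtain ⟨h, h1, h2, h3, -, -, hh⟩ := hc i (by omega)
      obtain ⟨h', h1', h2', h3', -, -, hh'⟩ := hc (i + 1) hi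
      have hfst1 := hfst i (by omega)
      have hfst2 := hfst (i + 1 + 1) (by omega)
      have heq : p (i + 1 + 1) = p i := by
        refine Prod.ext (by rw [hfst1, hfst2]) (Subtype.ext ?_)
        rw [h3', h3, hcc, G.mul_mul]
      refine ih (n - 2) (by omega) (by omega) e f hef
        (fun j => if j ≤ i then p j else p (j + 2)) ?_ ?_ ?_
      · show (if 0 ≤ i then p 0 else p (0 + 2)) ∈ _
        rw [if_pos (Nat.zero_le _)]
        exact h0
      · show (if n - 2 ≤ i then p (n - 2) else p (n - 2 + 2)) ∈ _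
        by_cases h7 : n - 2 ≤ i
        · rw [if_pos h7]
          have h8 : n - 2 = i := by omega
          rw [h8, ← heq]
          have h9 : i + 1 + 1 = n := by omega
          rw [h9]
          exact hn'
        · rw [if_neg h7, show n - 2 + 2 = n by omega]
          exact hn'
      · intro j hj
        show ∃ h, ends2 N G h = s(if j ≤ i then p j else p (j + 2),
          if j + 1 ≤ i then p (j + 1) else p (j + 1 + 2))
        by_cases h7 : j + 1 ≤ i
        · rw [if_pos h7, if_pos (by omega)]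
          exact hp j (by omega)
        · rw [if_neg h7]
          by_cases h8 : j ≤ i
          · rw [if_pos h8]
            have h9 : j = i := by omega
            subst h9
            rw [← heq]
            exact hp (j + 1 + 1) (by omega)
          · rw [if_neg h8]
            exact hp (j + 2) (by omega)
    -- the word
    let c' : ℕ → Fin r := fun m => if m = 0 then N.num (p 0).1 e else c (m - 1)
    have hc0 : c' 0 = N.num (p 0).1 e := rfl
    have hcs : ∀ m, c' (m + 1) = c m := fun m => rfl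
    have hne : ∀ m, m < n → c m ≠ c' m := by
      intro m hm
      cases m with
      | zero =>
        intro h1
        rw [hc0] at h1
        obtain ⟨h, h2, -, -, -, h5, -⟩ := hc 0 hm
        rw [h1, ← a3] at h2
        exact h5 _ h2
      | succ m =>
        rw [hcs]
        exact hred m hm
    have hst : ∀ m, m ≤ n → ∃ w : List (Fin r), (c' m :: w).length = m + 1 ∧
        (c' m :: w).IsChain (· ≠ ·) ∧ ((c' m :: w).map G.t).prod = ((p m).2.1)⁻¹ := by
      intro m
      induction m with
      | zero =>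
        intro _
        refine ⟨[], rfl, List.isChain_singleton _, ?_⟩
        rw [a2, ← hc0]
        simp only [List.map_cons, List.map_nil, List.prod_cons, List.prod_nil, mul_one]
        exact eq_inv_of_mul_eq_one_left (G.sq _)
      | succ m ihm =>
        intro hm
        obtain ⟨w, hw1, hw2, hw3⟩ := ihm (by omega)
        obtain ⟨h, -, -, h3, -, -, -⟩ := hc m (by omega)
        refine ⟨c' m :: w, by rw [List.length_cons, hw1], ?_, ?_⟩
        · rw [List.isChain_cons_cons, hcs]
          exact ⟨hne m (by omega), hw2⟩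
        · rw [List.map_cons, List.prod_cons, hw3, h3, mul_inv_rev, hcs]
          congr 1
          exact eq_inv_of_mul_eq_one_left (G.sq _)
    obtain ⟨w, hw1, hw2, hw3⟩ := hst n le_rfl
    have hlast : N.num (p n).1 f ≠ c' n := by
      intro h1
      cases n with
      | zero =>
        apply hef
        rw [hc0] at h1
        rw [← N.eo_num _ e a1, ← h1, N.eo_num _ f b1]
      | succ n =>
        rw [hcs] at h1
        obtain ⟨h, -, h2, -, -, h5, -⟩ := hc n (by omega)
        rw [← h1, ← b3] at h2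
        exact h5 _ h2
    refine G.word (N.num (p n).1 f :: c' n :: w) (by simp) ?_ ?_ ?_
    · simp only [List.length_cons] at hw1 ⊢
      omega
    · rw [List.isChain_cons_cons]
      exact ⟨hlast, hw2⟩
    · rw [List.map_cons, List.prod_cons, hw3, ← b2]
      exact mul_inv_cancel _

end

end Pool.Agent.Q295.RG
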