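import Mathlib

/-!
# Finite groups generated by involutions without short relations

For all `r ≥ 2`, `g`, `N` there is a finite group with at least `N` elements, generated by `r`
involutions, with a homomorphism to the group of order two which maps all these generators to the
nontrivial element, in which no reduced word of length at most `g` is trivial.
-/

set_option autoImplicit false

namespace Pool.Agent.Q295.RG

/-- A group with `r` involutions `t i`, a parity, and no short relations. -/
structure Gad (r g : ℕ) (Λ : Type) [Group Λ] where
  t : Fin r → Λ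
  par : Λ → Bool
  sq : ∀ i, t i * t i = 1
  par_one : par 1 = false
  par_mul : ∀ x i, par (x * t i) = !par x
  word : ∀ w : List (Fin r), w ≠ [] → w.length ≤ g → w.IsChain (· ≠ ·) → (w.map t).prod ≠ 1
  gen : Subgroup.closure (Set.range t) = ⊤

section construct

variable (r R : ℕ)

/-- the reduced words of length at most `R` -/
def Om : Type := {l : List (Fin r) // l.length ≤ R ∧ l.IsChain (· ≠ ·)}

instance : Finite (Om r R) :=
  ((List.finite_length_le (Fin r) R).subset (fun l (hl : l.length ≤ R ∧ l.IsChain (· ≠ ·)) => hl.1)).to_subtype

variable {r R}

/-- the action on lists -/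
def act (R : ℕ) (i : Fin r) : List (Fin r) → List (Fin r)
  | [] => if 0 < R then [i] else []
  | j :: l => if j = i then l else if (j :: l).length < R then i :: j :: l else j :: l

theorem act_nil (i : Fin r) : act R i [] = if 0 < R then [i] else [] := rfl

theorem act_cons (i j : Fin r) (l : List (Fin r)) :
    act R i (j :: l) = if j = i then l else if (j :: l).length < R then i :: j :: l else j :: l :=
  rfl

theorem act_mem (i : Fin r) (l : List (Fin r)) (h : l.length ≤ R ∧ l.IsChain (· ≠ ·)) :
    (act R i l).length ≤ R ∧ (act R i l).IsChain (· ≠ ·) := by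
  cases l with
  | nil =>
    rw [act_nil]
    split_ifs with h1
    · exact ⟨h1, List.isChain_singleton _⟩
    · exact ⟨by simp, List.isChain_nil⟩
  | cons j l =>
    rw [act_cons]
    split_ifs with h1 h2
    · refine ⟨?_, h.2.tail⟩
      have := h.1
      simp only [List.length_cons] at this
      omega
    · refine ⟨?_, ?_⟩
      · simp only [List.length_cons] at h2 ⊢
        omega
      · rw [List.isChain_cons_cons]
        exact ⟨fun hh => h1 hh.symm, h.2⟩
    · exact h

theorem act_act (i : Fin r) (l : List (Fin r)) (h : l.length ≤ R ∧ l.IsChain (· ≠ ·)) :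
    act R i (act R i l) = l := by
  cases l with
  | nil =>
    by_cases h1 : 0 < R
    · simp [act, h1]
    · simp [act, h1]
  | cons j l =>
    by_cases h1 : j = i
    · subst h1
      have e1 : act R j (j :: l) = l := by simp [act]
      rw [e1]
      cases l with
      | nil =>
        have : 0 < R := by
          have := h.1
          simp only [List.length_cons, List.length_nil] at this
          omega
        simp [act, this]
      | cons k l =>
        have h2 := h.2
        rw [List.isChain_cons_cons] at h2
        have h3 : (k :: l).length < R := by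
          have := h.1
          simp only [List.length_cons] at this ⊢
          omega
        have h4 : ¬ k = j := fun hh => h2.1 hh.symm
        rw [act_cons, if_neg h4, if_pos h3]
    · by_cases h2 : (j :: l).length < R
      · have e1 : act R i (j :: l) = i :: j :: l := by
          rw [act_cons, if_neg h1, if_pos h2]
        rw [e1]
        simp [act]
      · have e1 : act R i (j :: l) = j :: l := by
          rw [act_cons, if_neg h1, if_neg h2]
        rw [e1, e1]

/-- the involution of the words -/
noncomputable def inv (i : Fin r) : Equiv.Perm (Om r R) where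
  toFun l := ⟨act R i l.1, act_mem i l.1 l.2⟩
  invFun l := ⟨act R i l.1, act_mem i l.1 l.2⟩
  left_inv l := Subtype.ext (act_act i l.1 l.2)
  right_inv l := Subtype.ext (act_act i l.1 l.2)

theorem inv_sq (i : Fin r) : (inv i : Equiv.Perm (Om r R)) * inv i = 1 := by
  apply Equiv.ext
  intro l
  exact Subtype.ext (act_act i l.1 l.2)

/-- the empty word -/
def e0 : Om r R := ⟨[], by simp, List.isChain_nil⟩

theorem word_apply (w : List (Fin r)) (h1 : w.length ≤ R) (h2 : w.IsChain (· ≠ ·)) :
    ((w.map (fun i => (inv i : Equiv.Perm (Om r R)))).prod e0).1 = w := by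
  induction w with
  | nil => rfl
  | cons i w ih =>
    have h3 : w.length ≤ R := by
      simp only [List.length_cons] at h1
      omega
    have h4 := ih h3 h2.tail
    rw [List.map_cons, List.prod_cons, Equiv.Perm.mul_apply]
    show act R i _ = _
    rw [h4]
    cases w with
    | nil =>
      have : 0 < R := by
        simp only [List.length_cons, List.length_nil] at h1
        omega
      simp [act, this]
    | cons k l =>
      rw [List.isChain_cons_cons] at h2
      have h5 : (k :: l).length < R := by
        simp only [List.length_cons] at h1 ⊢
        omega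
      have h6 : ¬ k = i := fun hh => h2.1 hh.symm
      rw [act_cons, if_neg h6, if_pos h5]

/-- the big group -/
abbrev BG (r R : ℕ) : Type := Equiv.Perm (Om r R) × Multiplicative (ZMod 2)

/-- the generators in the big group -/
noncomputable def bt (i : Fin r) : BG r R := (inv i, Multiplicative.ofAdd 1)

/-- the group -/
abbrev La (r R : ℕ) : Type := Subgroup.closure (Set.range (bt : Fin r → BG r R))

/-- the generators -/
noncomputable def lt (i : Fin r) : La r R := ⟨bt i, Subgroup.subset_closure ⟨i, rfl⟩⟩

theorem prod_fst (w : List (Fin r)) :
    ((w.map (lt : Fin r → La r R)).prod : BG r R).1 = (w.map (fun i => (inv i : Equiv.Perm (Om r R)))).prod := by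
  induction w with
  | nil => rfl
  | cons i w ih =>
    rw [List.map_cons, List.prod_cons, List.map_cons, List.prod_cons, ← ih]
    rfl

/-- the alternating word -/
def alt (i j : Fin r) : ℕ → List (Fin r)
  | 0 => []
  | k + 1 => i :: j :: alt i j k

theorem alt_chain {i j : Fin r} (h : i ≠ j) (k : ℕ) : (alt i j k).IsChain (· ≠ ·) := by
  induction k with
  | zero => exact List.isChain_nil
  | succ k ih =>
    show (i :: j :: alt i j k).IsChain (· ≠ ·)
    rw [List.isChain_cons_cons]
    refine ⟨h, ?_⟩
    cases k with
    | zero => exact List.isChain_singleton _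
    | succ k =>
      show (j :: i :: j :: alt i j k).IsChain (· ≠ ·)
      rw [List.isChain_cons_cons]
      exact ⟨h.symm, ih⟩

theorem alt_length (i j : Fin r) (k : ℕ) : (alt i j k).length = 2 * k := by
  induction k with
  | zero => rfl
  | succ k ih =>
    show (alt i j k).length + 1 + 1 = _
    omega

theorem alt_prod {G : Type} [Group G] (t : Fin r → G) (i j : Fin r) (k : ℕ) :
    ((alt i j k).map t).prod = (t i * t j) ^ k := by
  induction k with
  | zero => simp [alt]
  | succ k ih =>
    show (List.map t (i :: j :: alt i j k)).prod = _
    rw [List.map_cons, List.prod_cons, List.map_cons, List.prod_cons, ih, pow_succ', mul_assoc]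

end construct

/-- The groups exist, with arbitrarily many elements. -/
theorem exists_gad (r g N : ℕ) (hr : 2 ≤ r) :
    ∃ (Λ : Type) (_ : Group Λ) (_ : Finite Λ) (_ : Gad r g Λ), N ≤ Nat.card Λ := by
  obtain ⟨R, hR⟩ : ∃ R : ℕ, R = g + 2 * N := ⟨_, rfl⟩
  have hword : ∀ w : List (Fin r), w ≠ [] → w.length ≤ R → w.IsChain (· ≠ ·) →
      (w.map (lt : Fin r → La r R)).prod ≠ 1 := by
    intro w h1 h2 h3 h4
    have h5 := prod_fst (R := R) w
    rw [h4] at h5
    have h6 := word_apply w h2 h3
    rw [← h5] at h6
    exact h1 h6.symm
  refine ⟨La r R, inferInstance, inferInstance, ?_, ?_⟩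
  · refine
      { t := lt
        par := fun x => decide ((x : BG r R).2 = Multiplicative.ofAdd 1)
        sq := ?_
        par_one := ?_
        par_mul := ?_
        word := fun w h1 h2 h3 => hword w h1 (by omega) h3
        gen := ?_ }
    · intro i
      apply Subtype.ext
      refine Prod.ext (inv_sq i) ?_
      show Multiplicative.ofAdd (1 : ZMod 2) * Multiplicative.ofAdd (1 : ZMod 2) = 1
      decide
    · show decide ((1 : Multiplicative (ZMod 2)) = Multiplicative.ofAdd 1) = false
      decide
    · intro x i
      have key : ∀ y : Multiplicative (ZMod 2),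
          decide (y * Multiplicative.ofAdd (1 : ZMod 2) = Multiplicative.ofAdd 1) =
            !decide (y = Multiplicative.ofAdd 1) := by decide
      exact key (x : BG r R).2
    · have h := Subgroup.closure_closure_coe_preimage (k := Set.range (bt : Fin r → BG r R))
      rw [← h]
      congr 1
      ext x
      simp only [Set.mem_range, Set.mem_preimage]
      constructor
      · rintro ⟨i, rfl⟩
        exact ⟨i, rfl⟩
      · rintro ⟨i, hi⟩
        exact ⟨i, Subtype.ext hi⟩
  · by_contra hlt
    push Not at hlt
    have h1 : orderOf ((lt ⟨0, by omega⟩ : La r R) * lt ⟨1, by omega⟩) ≤ Nat.card (La r R) :=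
      orderOf_le_card
    have h2 : 0 < orderOf ((lt ⟨0, by omega⟩ : La r R) * lt ⟨1, by omega⟩) := orderOf_pos _
    have h3 := pow_orderOf_eq_one ((lt ⟨0, by omega⟩ : La r R) * lt ⟨1, by omega⟩)
    rw [← alt_prod] at h3
    refine hword _ ?_ ?_ (alt_chain (by simp [Fin.ext_iff]) _) h3
    · intro h4
      have := congrArg List.length h4
      rw [alt_length] at this
      simp only [List.length_nil] at this
      omega
    · rw [alt_length]
      omega

end Pool.Agent.Q295.RG
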