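import Pool.Agent.Q295.RG.Cay3
import Pool.Agent.Q234.HF.Core

/-!
# Oriented multigraphs: substitution, degrees, cuts
-/

set_option autoImplicit false

namespace Pool.Agent.Q295.RG

open Finset Pool.Agent.H160R2.HF Pool.Agent.Q234.HF

section basics

variable {V E : Type} [Fintype V] [Fintype E] [DecidableEq V] [DecidableEq E]

/-- the ends of the edges -/
def ed (O : OrGraph V E) : E → Sym2 V := fun e => s(O.t e, O.h e)

omit [Fintype V] [Fintype E] [DecidableEq V] [DecidableEq E] in
theorem mem_ed (O : OrGraph V E) (v : V) (e : E) : v ∈ ed O e ↔ O.t e = v ∨ O.h e = v := by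
  rw [ed, Sym2.mem_iff]
  constructor
  · rintro (h | h)
    · exact Or.inl h.symm
    · exact Or.inr h.symm
  · rintro (h | h)
    · exact Or.inl h.symm
    · exact Or.inr h.symm

omit [Fintype V] [DecidableEq E] in
theorem ncard_ed (O : OrGraph V E) (hl : ∀ e, O.t e ≠ O.h e) (v : V) :
    {e | v ∈ ed O e}.ncard = O.deg univ v := by
  classical
  have h1 : {e | v ∈ ed O e} =
      ((univ.filter (fun e => O.t e = v) ∪ univ.filter (fun e => O.h e = v) : Finset E) : Set E) := by
    ext e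
    simp only [Set.mem_ofPred_eq, Finset.coe_union, Finset.coe_filter, Finset.mem_univ, true_and,
      Set.mem_union]
    exact mem_ed O v e
  rw [h1, Set.ncard_coe_finset, Finset.card_union_of_disjoint]
  · rfl
  · rw [Finset.disjoint_left]
    intro e h2 h3
    rw [Finset.mem_filter] at h2 h3
    exact hl e (h2.2.trans h3.2.symm)

omit [Fintype V] [DecidableEq E] in
theorem cut_eq (O : OrGraph V E) (X : Finset V) :
    {e | ∃ u ∈ (X : Set V), ∃ w, w ∉ (X : Set V) ∧ ed O e = s(u, w)} = ((O.cut X : Finset E) : Set E) := by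
  ext e
  simp only [Set.mem_ofPred_eq, Finset.mem_coe]
  unfold OrGraph.cut
  rw [Finset.mem_filter]
  constructor
  · rintro ⟨u, hu, w, hw, he⟩
    refine ⟨Finset.mem_univ _, ?_⟩
    rw [ed, Sym2.eq_iff] at he
    rcases he with ⟨h1, h2⟩ | ⟨h1, h2⟩
    · rw [h1, h2]
      exact fun h => hw (h.mp hu)
    · rw [h1, h2]
      exact fun h => hw (h.mpr hu)
  · rintro ⟨-, h⟩
    by_cases h1 : O.t e ∈ X
    · have h2 : O.h e ∉ X := fun h2 => h ⟨fun _ => h2, fun _ => h1⟩
      exact ⟨_, h1, _, h2, rfl⟩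
    · have h2 : O.h e ∈ X := by
        by_contra h2
        exact h ⟨fun h3 => absurd h3 h1, fun h3 => absurd h3 h2⟩
      exact ⟨_, h2, _, h1, Sym2.eq_swap⟩

omit [DecidableEq E] in
theorem even_card (O : OrGraph V E) (hc : O.Cubic) : Even (Fintype.card V) := by
  classical
  have h1 : ∑ v : V, O.deg univ v = 2 * Fintype.card E := by
    unfold OrGraph.deg
    rw [Finset.sum_add_distrib]
    have h2 : ∀ f : E → V, ∑ v : V, (univ.filter (fun e => f e = v)).card = Fintype.card E := by
      intro f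
      rw [← Finset.card_univ]
      exact (Finset.card_eq_sum_card_fiberwise (f := f) (t := Finset.univ)
        (fun _ _ => Finset.mem_coe.mpr (Finset.mem_univ _))).symm
    rw [h2, h2]
    omega
  have h3 : ∑ v : V, O.deg univ v = 3 * Fintype.card V := by
    rw [Finset.sum_congr rfl (fun v _ => hc v), Finset.sum_const, Finset.card_univ, smul_eq_mul,
      mul_comm]
  rw [Nat.even_iff]
  omega

theorem loopless_of (O : OrGraph V E) (hc : O.Cubic) (h3 : ThreeEdgeConnected O) (e : E) :
    O.t e ≠ O.h e := by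
  intro he
  obtain ⟨v, hv⟩ : ∃ v, v = O.t e := ⟨_, rfl⟩
  have hd := hc v
  unfold OrGraph.deg at hd
  have hcut : O.cut {v} = (univ.filter (fun e => O.t e = v)).filter (fun e => O.h e ≠ v) ∪
      (univ.filter (fun e => O.h e = v)).filter (fun e => O.t e ≠ v) := by
    ext f
    rw [mem_cut]
    simp only [Finset.mem_singleton, Finset.mem_union, Finset.mem_filter, Finset.mem_univ, true_and]
    by_cases h1 : O.t f = v <;> by_cases h2 : O.h f = v <;> simp [h1, h2]
  have hlt1 : ((univ.filter (fun e => O.t e = v)).filter (fun e => O.h e ≠ v)).card <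
      (univ.filter (fun e => O.t e = v)).card := by
    refine Finset.card_lt_card (Finset.filter_ssubset.mpr ⟨e, ?_, ?_⟩)
    · rw [Finset.mem_filter]; exact ⟨Finset.mem_univ _, hv.symm⟩
    · rw [not_not, ← he, ← hv]
  have hlt2 : ((univ.filter (fun e => O.h e = v)).filter (fun e => O.t e ≠ v)).card <
      (univ.filter (fun e => O.h e = v)).card := by
    refine Finset.card_lt_card (Finset.filter_ssubset.mpr ⟨e, ?_, ?_⟩)
    · rw [Finset.mem_filter]; exact ⟨Finset.mem_univ _, by rw [← he, ← hv]⟩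
    · rw [not_not, ← hv]
  have hle : (O.cut {v}).card ≤ 1 := by
    rw [hcut]
    refine (Finset.card_union_le _ _).trans ?_
    omega
  by_cases hu : ({v} : Finset V) = univ
  · have h4 : ∀ w : V, w = v := by
      intro w
      have : w ∈ ({v} : Finset V) := by rw [hu]; exact Finset.mem_univ _
      exact Finset.mem_singleton.mp this
    have h5 := even_card O hc
    rw [← Finset.card_univ, ← hu, Finset.card_singleton] at h5
    exact absurd h5 (by decide)
  · have := h3 {v} (Finset.singleton_nonempty v) hu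
    omega

theorem rgraph_of (O : OrGraph V E) (hc : O.Cubic) (h3 : ThreeEdgeConnected O) :
    RGraph 3 (ed O) := by
  classical
  have hl := loopless_of O hc h3
  refine ⟨?_, ?_, ?_⟩
  · intro e he
    rw [ed, Sym2.mk_isDiag_iff] at he
    exact hl e he
  · intro v
    rw [ncard_ed O hl, hc v]
  · intro X hX
    have h4 : X = ((X.toFinset : Finset V) : Set V) := (Set.coe_toFinset X).symm
    rw [h4, Set.ncard_coe_finset] at hX
    rw [h4, cut_eq, Set.ncard_coe_finset]
    refine h3 _ ?_ ?_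
    · rw [← Finset.card_pos]
      exact hX.pos
    · intro h5
      rw [h5, Finset.card_univ] at hX
      exact (Nat.not_even_iff_odd.mpr hX) (even_card O hc)

end basics

section subst

variable {g : ℕ} {V E : Type} {O : OrGraph V E} (N : Num 3 (ed O)) {Λ : Type} [Group Λ]
  (G : Gad 3 g Λ)

/-- the oriented substituted graph -/
def og2 : OrGraph (V × {x : Λ // x ≠ 1}) (E2 V E G) where
  t f := match f with
    | .inl e => (O.t e, G.port (N.num (O.t e) e))
    | .inr (v, x, _) => (v, ⟨x.1, x.2.2⟩)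
  h f := match f with
    | .inl e => (O.h e, G.port (N.num (O.h e) e))
    | .inr (v, x, i) => (v, G.nx x i)

theorem ed_og2 : ed (og2 N G) = ends2 N G := by
  funext f
  rcases f with e | ⟨v, x, i⟩
  · rfl
  · rfl

theorem loopless_og2 (hl : ∀ e, O.t e ≠ O.h e) (f : E2 V E G) : (og2 N G).t f ≠ (og2 N G).h f := by
  intro h
  refine loopless2 N G (fun e he => ?_) f ?_
  · rw [ed, Sym2.mk_isDiag_iff] at he
    exact hl e he
  · rw [← ed_og2, ed, Sym2.mk_isDiag_iff]
    exact h

/-- both ends of an edge inside -/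
theorem ends_edgeAt (v : V) (x : Λ) (hx : x ≠ 1) (i : Fin 3) (h : x * G.t i ≠ 1) :
    ends2 N G (edgeAt N G (v, ⟨x, hx⟩) i) = s((v, ⟨x, hx⟩), (v, ⟨x * G.t i, h⟩)) := by
  classical
  unfold edgeAt
  by_cases h1 : G.par x = false
  · rw [dif_pos h1]
    rfl
  · rw [dif_neg h1, dif_neg h]
    show s((v, (⟨x * G.t i, h⟩ : {x : Λ // x ≠ 1})), (v, G.nx _ i)) = _
    rw [Sym2.eq_swap]
    have h2 : G.nx ⟨x * G.t i, (by
        rw [G.par_mul]
        cases hh : G.par x
        · exact absurd hh h1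
        · rfl : G.par (x * G.t i) = false), h⟩ i = (⟨x, hx⟩ : {x : Λ // x ≠ 1}) :=
      Subtype.ext (G.mul_mul _ _)
    exact congrArg (fun z => s((v, z), (v, (⟨x * G.t i, h⟩ : {x : Λ // x ≠ 1})))) h2

/-- an edge inside is not outside -/
theorem edgeAt_inner (v : V) (x : Λ) (hx : x ≠ 1) (i : Fin 3) (h : x * G.t i ≠ 1) :
    ∃ y, edgeAt N G (v, ⟨x, hx⟩) i = .inr (v, y, i) := by
  classical
  unfold edgeAt
  by_cases h1 : G.par x = false
  · rw [dif_pos h1]
    exact ⟨_, rfl⟩
  · rw [dif_neg h1, dif_neg h]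
    exact ⟨_, rfl⟩

theorem edgeAt_port (v : V) (i : Fin 3) : edgeAt N G (v, G.port i) i = .inl (N.eo v i) := by
  classical
  unfold edgeAt
  have h1 : ¬ G.par (G.port i).1 = false := by
    rw [show G.par (G.port i).1 = true from G.par_t i]; decide
  have h2 : (G.port i).1 * G.t i = 1 := G.sq i
  rw [dif_neg h1, dif_pos h2]

/-- the cut of the parities -/
theorem cut_sub [Finite V] [Finite E] [Finite Λ] (X : Set (V × {x : Λ // x ≠ 1})) :
    cut (ed O) {v : V | Odd {x : {x : Λ // x ≠ 1} | (v, x) ∈ X}.ncard} ⊆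
      pr N G '' cut (ends2 N G) X := by
  classical
  rintro e ⟨u, hu, w, hw, he⟩
  by_contra hno
  have hno' : ∀ f : E2 V E G, pr N G f = e → f ∉ cut (ends2 N G) X := by
    intro f hf hf'
    exact hno ⟨f, hf', hf⟩
  have hue : u ∈ ed O e := by rw [he]; exact Sym2.mem_mk_left _ _
  have hwe : w ∈ ed O e := by rw [he]; exact Sym2.mem_mk_right _ _
  have hu1 := even_of N G X u (N.num u e) (fun y => hno' _ (N.eo_num u e hue))
  have hw1 := even_of N G X w (N.num w e) (fun y => hno' _ (N.eo_num w e hwe))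
  have hu2 : (u, G.port (N.num u e)) ∈ X := by
    by_contra h2
    have h3 : {x : {x : Λ // x ≠ 1} | (u, x) ∈ X ∧ x ≠ G.port (N.num u e)} =
        {x : {x : Λ // x ≠ 1} | (u, x) ∈ X} := by
      ext x
      simp only [Set.mem_ofPred_eq]
      constructor
      · exact fun h => h.1
      · intro h
        refine ⟨h, ?_⟩
        rintro rfl
        exact h2 h
    rw [h3] at hu1
    exact (Nat.not_even_iff_odd.mpr hu) hu1
  have hw2 : (w, G.port (N.num w e)) ∉ X := by
    intro h2
    have h3 : {x : {x : Λ // x ≠ 1} | (w, x) ∈ X} = insert (G.port (N.num w e))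
        {x : {x : Λ // x ≠ 1} | (w, x) ∈ X ∧ x ≠ G.port (N.num w e)} := by
      ext x
      simp only [Set.mem_ofPred_eq, Set.mem_insert_iff]
      constructor
      · intro h
        by_cases hx : x = G.port (N.num w e)
        · exact Or.inl hx
        · exact Or.inr ⟨h, hx⟩
      · rintro (rfl | h)
        · exact h2
        · exact h.1
    apply hw
    show Odd {x : {x : Λ // x ≠ 1} | (w, x) ∈ X}.ncard
    rw [h3, Set.ncard_insert_of_notMem (by simp)]
    exact hw1.add_one
  apply hno' (.inl e) rfl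
  refine ⟨_, hu2, _, hw2, ?_⟩
  show (ed O e).map _ = _
  rw [he, Sym2.map_mk]

end subst

section conn

variable {g : ℕ} {V E : Type} [Fintype V] [Fintype E] [DecidableEq V] [DecidableEq E]
  {O : OrGraph V E} (N : Num 3 (ed O)) {Λ : Type} [Group Λ] [Fintype Λ] [DecidableEq Λ]
  (G : Gad 3 g Λ) [Fintype (E2 V E G)] [DecidableEq (E2 V E G)]

/-- the part of `X` at `v` -/
def Xv (X : Finset (V × {x : Λ // x ≠ 1})) (v : V) : Finset Λ :=
  univ.filter (fun x => ∃ h : x ≠ 1, (v, (⟨x, h⟩ : {x : Λ // x ≠ 1})) ∈ X)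

/-- the cut edges inside at `v` -/
def Iv (X : Finset (V × {x : Λ // x ≠ 1})) (v : V) : Finset (E2 V E G) :=
  ((og2 N G).cut X).filter (fun f => ∃ y i, f = .inr (v, y, i))

/-- the ports at `v` in `X` -/
def Pv (X : Finset (V × {x : Λ // x ≠ 1})) (v : V) : Finset (Fin 3) :=
  univ.filter (fun i => (v, G.port i) ∈ X)

omit [Fintype V] [Fintype E] [DecidableEq E] [DecidableEq Λ] [Fintype Λ] in
theorem mem_cut2 (X : Finset (V × {x : Λ // x ≠ 1})) (f : E2 V E G) [DecidableEq Λ] :
    f ∈ (og2 N G).cut X ↔ ∃ u ∈ X, ∃ w, w ∉ X ∧ ends2 N G f = s(u, w) := by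
  have h := cut_eq (og2 N G) X
  rw [ed_og2] at h
  have h2 : f ∈ ((og2 N G).cut X : Set (E2 V E G)) ↔
      f ∈ {e | ∃ u ∈ (X : Set (V × {x : Λ // x ≠ 1})), ∃ w, w ∉ (X : Set (V × {x : Λ // x ≠ 1})) ∧
        ends2 N G e = s(u, w)} := by rw [h]
  exact h2

theorem d_le (X : Finset (V × {x : Λ // x ≠ 1})) (v : V) :
    G.d (Xv X v) ≤ (Iv N G X v).card + (Pv G X v).card := by
  classical
  have h1 := Finset.card_filter_add_card_filter_not (s := G.dc (Xv X v)) (fun p => p.1 * G.t p.2 = 1)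
  have h2 : ((G.dc (Xv X v)).filter (fun p => p.1 * G.t p.2 = 1)).card ≤ (Pv G X v).card := by
    refine Finset.card_le_card_of_injOn (fun p => p.2) ?_ ?_
    · intro p hp
      rw [Finset.mem_coe, Finset.mem_filter, Gad.dc, Finset.mem_filter, Xv, Finset.mem_filter] at hp
      obtain ⟨⟨-, ⟨-, h3, h4⟩, -⟩, h5⟩ := hp
      show p.2 ∈ (Pv G X v : Set (Fin 3))
      rw [Finset.mem_coe, Pv, Finset.mem_filter]
      refine ⟨Finset.mem_univ _, ?_⟩
      have h6 : (⟨p.1, h3⟩ : {x : Λ // x ≠ 1}) = G.port p.2 := by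
        apply Subtype.ext
        show p.1 = G.t p.2
        have h7 := G.mul_mul p.1 p.2
        rw [h5, one_mul] at h7
        exact h7.symm
      rw [← h6]
      exact h4
    · intro p hp q hq hpq
      rw [Finset.mem_coe, Finset.mem_filter] at hp hq
      have hpq' : p.2 = q.2 := hpq
      refine Prod.ext ?_ hpq'
      have h3 := hp.2
      have h4 := hq.2
      rw [← hpq'] at h4
      exact mul_right_cancel (h3.trans h4.symm)
  have h3 : ((G.dc (Xv X v)).filter (fun p => ¬ p.1 * G.t p.2 = 1)).card ≤ (Iv N G X v).card := by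
    refine Finset.card_le_card_of_injOn
      (fun p => if h : p.1 ≠ 1 then edgeAt N G (v, ⟨p.1, h⟩) p.2 else
        edgeAt N G (v, G.port p.2) p.2) ?_ ?_
    · intro p hp
      rw [Finset.mem_coe, Finset.mem_filter, Gad.dc, Finset.mem_filter] at hp
      obtain ⟨⟨-, h4, h5⟩, h6⟩ := hp
      have h4' := h4
      rw [Xv, Finset.mem_filter] at h4'
      obtain ⟨-, h7, h8⟩ := h4'
      show (if h : p.1 ≠ 1 then edgeAt N G (v, ⟨p.1, h⟩) p.2 else _) ∈ (Iv N G X v : Set (E2 V E G))
      rw [dif_pos h7, Finset.mem_coe, Iv, Finset.mem_filter]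
      refine ⟨?_, ?_⟩
      · rw [mem_cut2, ends_edgeAt N G v p.1 h7 p.2 h6]
        refine ⟨_, h8, _, ?_, rfl⟩
        intro h9
        apply h5
        rw [Xv, Finset.mem_filter]
        exact ⟨Finset.mem_univ _, h6, h9⟩
      · obtain ⟨y, hy⟩ := edgeAt_inner N G v p.1 h7 p.2 h6
        exact ⟨y, p.2, hy⟩
    · intro p hp q hq hpq
      rw [Finset.mem_coe, Finset.mem_filter, Gad.dc, Finset.mem_filter] at hp hq
      obtain ⟨⟨-, hp4, hp5⟩, hp6⟩ := hp
      obtain ⟨⟨-, hq4, hq5⟩, hq6⟩ := hq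
      rw [Xv, Finset.mem_filter] at hp4 hq4
      obtain ⟨-, hp7, hp8⟩ := hp4
      obtain ⟨-, hq7, hq8⟩ := hq4
      have hpq' : edgeAt N G (v, ⟨p.1, hp7⟩) p.2 = edgeAt N G (v, ⟨q.1, hq7⟩) q.2 := by
        have : (if h : p.1 ≠ 1 then edgeAt N G (v, ⟨p.1, h⟩) p.2 else
            edgeAt N G (v, G.port p.2) p.2) = (if h : q.1 ≠ 1 then edgeAt N G (v, ⟨q.1, h⟩) q.2 else
            edgeAt N G (v, G.port q.2) q.2) := hpq
        rwa [dif_pos hp7, dif_pos hq7] at this
      have e1 := ends_edgeAt N G v p.1 hp7 p.2 hp6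
      have e2 := ends_edgeAt N G v q.1 hq7 q.2 hq6
      rw [hpq', e2, Sym2.eq_iff] at e1
      have hpq1 : q.1 = p.1 := by
        rcases e1 with ⟨h9, -⟩ | ⟨h9, -⟩
        · exact congrArg (fun z => z.2.1) h9
        · exfalso
          apply hp5
          rw [Xv, Finset.mem_filter]
          refine ⟨Finset.mem_univ _, hp6, ?_⟩
          rw [← h9]
          exact hq8
      have hsub : (⟨p.1, hp7⟩ : {x : Λ // x ≠ 1}) = ⟨q.1, hq7⟩ := Subtype.ext hpq1.symm
      rw [hsub] at hpq'
      exact Prod.ext hpq1.symm (edgeAt_inj N G _ hpq')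
  rw [Gad.d]
  omega

/-- evenness at `v`: every port in `X` has a cut edge of its colour -/
theorem p_le (X : Finset (V × {x : Λ // x ≠ 1})) (v : V)
    (hev : Even {x : {x : Λ // x ≠ 1} | (v, x) ∈ X}.ncard) :
    (Pv G X v).card ≤ (Iv N G X v).card := by
  classical
  have h1 : ∀ i : Fin 3, (v, G.port i) ∈ X → ∃ y : G.Ev, (.inr (v, y, i) : E2 V E G) ∈ (og2 N G).cut X := by
    intro i hi
    by_contra hno
    push Not at hno
    have h2 := even_of N G (X : Set (V × {x : Λ // x ≠ 1})) v i (by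
      intro y hy
      apply hno y
      rw [mem_cut2]
      exact hy)
    have h3 : {x : {x : Λ // x ≠ 1} | (v, x) ∈ X} = insert (G.port i)
        {x : {x : Λ // x ≠ 1} | (v, x) ∈ (X : Set (V × {x : Λ // x ≠ 1})) ∧ x ≠ G.port i} := by
      ext x
      simp only [Set.mem_ofPred_eq, Set.mem_insert_iff, Finset.mem_coe]
      constructor
      · intro h
        by_cases hx : x = G.port i
        · exact Or.inl hx
        · exact Or.inr ⟨h, hx⟩
      · rintro (rfl | h)
        · exact hi
        · exact h.1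
    rw [h3, Set.ncard_insert_of_notMem (by simp)] at hev
    have h4 := h2.add_one
    exact (Nat.not_even_iff_odd.mpr h4) hev
  have h5 : ∀ i : Fin 3, ∃ f : E2 V E G, (v, G.port i) ∈ X → f ∈ Iv N G X v ∧ ∃ y, f = .inr (v, y, i) := by
    intro i
    by_cases hi : (v, G.port i) ∈ X
    · obtain ⟨y, hy⟩ := h1 i hi
      refine ⟨.inr (v, y, i), fun _ => ⟨?_, y, rfl⟩⟩
      rw [Iv, Finset.mem_filter]
      exact ⟨hy, y, i, rfl⟩
    · exact ⟨edgeAt N G (v, G.port i) i, fun h => absurd h hi⟩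
  choose f hf using h5
  refine Finset.card_le_card_of_injOn f ?_ ?_
  · intro i hi
    rw [Finset.mem_coe, Pv, Finset.mem_filter] at hi
    exact Finset.mem_coe.mpr (hf i hi.2).1
  · intro i hi j hj hij
    rw [Finset.mem_coe, Pv, Finset.mem_filter] at hi hj
    obtain ⟨-, y, hy⟩ := hf i hi.2
    obtain ⟨-, z, hz⟩ := hf j hj.2
    rw [hy, hz] at hij
    exact congrArg (fun q => q.2.2) (Sum.inr.inj hij)

/-- no small cuts whose parts are even -/
theorem three_even (hg : 2 ≤ g) (hl : ∀ e, O.t e ≠ O.h e) (X : Finset (V × {x : Λ // x ≠ 1}))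
    (hne : X.Nonempty) (hev : ∀ v, Even {x : {x : Λ // x ≠ 1} | (v, x) ∈ X}.ncard) :
    3 ≤ ((og2 N G).cut X).card := by
  classical
  by_contra hlt
  have hI : ∀ v, Iv N G X v ⊆ (og2 N G).cut X := fun v => Finset.filter_subset _ _
  have key : ∀ v, (∃ x, (v, x) ∈ X) → 2 ≤ (Iv N G X v).card ∧ (Pv G X v).Nonempty := by
    rintro v ⟨x, hx⟩
    have h1 : (Xv X v).Nonempty := by
      refine ⟨x.1, ?_⟩
      rw [Xv, Finset.mem_filter]
      exact ⟨Finset.mem_univ _, x.2, hx⟩
    have h2 : Xv X v ≠ univ := by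
      intro h3
      have h4 : (1 : Λ) ∈ Xv X v := by rw [h3]; exact Finset.mem_univ _
      rw [Xv, Finset.mem_filter] at h4
      obtain ⟨-, h5, -⟩ := h4
      exact h5 rfl
    have h3 := G.three_le hg _ h1 h2
    have h4 := d_le N G X v
    have h5 := p_le N G X v (hev v)
    have h6 := Finset.card_le_card (hI v)
    refine ⟨by omega, ?_⟩
    rw [← Finset.card_pos]
    omega
  obtain ⟨⟨v, x⟩, hvx⟩ := hne
  obtain ⟨h1, ⟨i, hi⟩⟩ := key v ⟨x, hvx⟩
  rw [Pv, Finset.mem_filter] at hi
  have hcut : Iv N G X v = (og2 N G).cut X :=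
    Finset.eq_of_subset_of_card_le (hI v) (by omega)
  -- the edge outside at the port
  have hnc : (.inl (N.eo v i) : E2 V E G) ∉ (og2 N G).cut X := by
    rw [← hcut, Iv, Finset.mem_filter]
    rintro ⟨-, y, j, h⟩
    exact absurd h (by simp)
  obtain ⟨w, hw, hwX⟩ : ∃ w, w ≠ v ∧ (w, G.port (N.num w (N.eo v i))) ∈ X := by
    have h2 := N.mem v i
    rw [mem_ed] at h2
    have hnum := N.num_eo v i
    have hiff : (og2 N G).t (.inl (N.eo v i)) ∈ X ↔ (og2 N G).h (.inl (N.eo v i)) ∈ X := by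
      by_contra h3
      apply hnc
      rw [mem_cut]
      exact h3
    rcases h2 with h2 | h2
    · refine ⟨O.h (N.eo v i), ?_, ?_⟩
      · intro h3
        exact hl (N.eo v i) (h2.trans h3.symm)
      · apply hiff.mp
        show (O.t (N.eo v i), G.port (N.num (O.t (N.eo v i)) (N.eo v i))) ∈ X
        rw [h2, hnum]
        exact hi.2
    · refine ⟨O.t (N.eo v i), ?_, ?_⟩
      · intro h3
        exact hl (N.eo v i) (h3.trans h2.symm)
      · apply hiff.mpr
        show (O.h (N.eo v i), G.port (N.num (O.h (N.eo v i)) (N.eo v i))) ∈ X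
        rw [h2, hnum]
        exact hi.2
  obtain ⟨h2, -⟩ := key w ⟨_, hwX⟩
  have h3 : (Iv N G X w).Nonempty := by
    rw [← Finset.card_pos]
    omega
  obtain ⟨f, hf⟩ := h3
  have hf' := hI w hf
  rw [← hcut] at hf'
  rw [Iv, Finset.mem_filter] at hf hf'
  obtain ⟨-, y, j, hy⟩ := hf
  obtain ⟨-, z, k, hz⟩ := hf'
  rw [hy] at hz
  exact hw (congrArg (fun q => q.1) (Sum.inr.inj hz))

/-- The substituted graph is 3-edge-connected. -/
theorem three_conn (hg : 2 ≤ g) (hc : O.Cubic) (h3 : ThreeEdgeConnected O) :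
    ThreeEdgeConnected (og2 N G) := by
  classical
  have hl := loopless_of O hc h3
  have hr := rgraph_of O hc h3
  have hr2 := rgraph2 N G hr
  intro X hX1 hX2
  by_contra hlt
  -- the parities
  have hcutX : cut (ends2 N G) (X : Set (V × {x : Λ // x ≠ 1})) =
      (((og2 N G).cut X : Finset (E2 V E G)) : Set (E2 V E G)) := by
    rw [← ed_og2]
    exact cut_eq (og2 N G) X
  obtain ⟨Y, hY⟩ : ∃ Y : Finset V, (Y : Set V) =
      {v : V | Odd {x : {x : Λ // x ≠ 1} | (v, x) ∈ (X : Set (V × {x : Λ // x ≠ 1}))}.ncard} :=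
    ⟨_, Set.coe_toFinset _⟩
  have h4 := cut_sub N G (X : Set (V × {x : Λ // x ≠ 1}))
  rw [← hY, hcutX] at h4
  have h5 : cut (ed O) (Y : Set V) = ((O.cut Y : Finset E) : Set E) := cut_eq O Y
  rw [h5] at h4
  have h6 : (O.cut Y).card < 3 := by
    have h7 := (Set.ncard_le_ncard h4 (Set.toFinite _)).trans (Set.ncard_image_le (Set.toFinite _))
    rw [Set.ncard_coe_finset, Set.ncard_coe_finset] at h7
    omega
  have h7 : Y = ∅ ∨ Y = univ := by
    by_contra h8
    push Not at h8
    have := h3 Y h8.1 h8.2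
    omega
  -- evenness of the number of elements
  have hΛ : Fintype.card Λ % 2 = 0 := by
    have h8 := G.colour_parity (univ : Finset Λ) 0
    have h9 : (G.dc (univ : Finset Λ)).filter (fun p => p.2 = 0) = ∅ := by
      rw [Finset.filter_eq_empty_iff]
      intro p hp
      rw [Gad.dc, Finset.mem_filter] at hp
      exact absurd (Finset.mem_univ _) hp.2.2
    rw [h9, Finset.card_empty, Finset.card_univ] at h8
    omega
  rcases h7 with h7 | h7
  · have hev : ∀ v, Even {x : {x : Λ // x ≠ 1} | (v, x) ∈ X}.ncard := by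
      intro v
      rw [← Nat.not_odd_iff_even]
      intro hodd
      have : v ∈ (Y : Set V) := by rw [hY]; exact hodd
      rw [h7] at this
      simp at this
    have := three_even N G hg hl X hX1 hev
    omega
  · have hodd : ∀ v, Odd {x : {x : Λ // x ≠ 1} | (v, x) ∈ X}.ncard := by
      intro v
      have : v ∈ (Y : Set V) := by rw [h7]; simp
      rw [hY] at this
      exact this
    have hev : ∀ v, Even {x : {x : Λ // x ≠ 1} | (v, x) ∈ Xᶜ}.ncard := by
      intro v
      have h8 := Set.ncard_add_ncard_compl {x : {x : Λ // x ≠ 1} | (v, x) ∈ X}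
      have h9 : {x : {x : Λ // x ≠ 1} | (v, x) ∈ X}ᶜ = {x : {x : Λ // x ≠ 1} | (v, x) ∈ Xᶜ} := by
        ext x
        simp
      rw [h9] at h8
      have h10 : Nat.card {x : Λ // x ≠ 1} + 1 = Fintype.card Λ := by
        have h3 := Set.ncard_add_ncard_compl ({1} : Set Λ)
        rw [Set.ncard_singleton, Nat.card_eq_fintype_card] at h3
        have h4 : Nat.card {x : Λ // x ≠ 1} = ({1}ᶜ : Set Λ).ncard := rfl
        omega
      have h11 := hodd v
      rw [Nat.odd_iff] at h11
      rw [Nat.even_iff]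
      omega
    have hXc : (Xᶜ).Nonempty := by
      rw [Finset.nonempty_iff_ne_empty]
      intro h8
      exact hX2 (by rwa [Finset.compl_eq_empty_iff] at h8)
    have h8 := three_even N G hg hl Xᶜ hXc hev
    have h9 : (og2 N G).cut Xᶜ = (og2 N G).cut X := by
      ext f
      rw [mem_cut, mem_cut, Finset.mem_compl, Finset.mem_compl]
      tauto
    rw [h9] at h8
    omega

/-- The substituted graph is cubic. -/
theorem cubic2 (hl : ∀ e, O.t e ≠ O.h e) : (og2 N G).Cubic := by
  intro p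
  rw [← ncard_ed (og2 N G) (loopless_og2 N G hl) p, ed_og2]
  exact regular2 N G p

/-- All sets of edges with even degrees are large. -/
theorem even_sets {r : ℕ} (hr : 2 * r < g) (hl : ∀ e, O.t e ≠ O.h e) (C : Finset (E2 V E G))
    (hC : C.Nonempty) (hev : ∀ p, Even ((og2 N G).deg C p)) : r < C.card := by
  classical
  by_contra hle
  -- the darts
  let D : Type := {p : E2 V E G × Bool // p.1 ∈ C}
  let tl : D → V × {x : Λ // x ≠ 1} := fun p => if p.1.2 then (og2 N G).t p.1.1 else (og2 N G).h p.1.1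
  let hd : D → V × {x : Λ // x ≠ 1} := fun p => if p.1.2 then (og2 N G).h p.1.1 else (og2 N G).t p.1.1
  have hj : ∀ p : D, Joins (og2 N G) p.1.1 (tl p) (hd p) := by
    rintro ⟨⟨e, b⟩, he⟩
    cases b
    · exact Or.inr ⟨rfl, rfl⟩
    · exact Or.inl ⟨rfl, rfl⟩
  have hj' : ∀ e ∈ C, ∀ u w, Joins (og2 N G) e u w → ∃ p : D, p.1.1 = e ∧ tl p = u ∧ hd p = w := by
    intro e he u w h
    rcases h with ⟨h1, h2⟩ | ⟨h1, h2⟩
    · exact ⟨⟨(e, true), he⟩, rfl, h1, h2⟩
    · exact ⟨⟨(e, false), he⟩, rfl, h2, h1⟩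
  have hnext : ∀ p : D, ∃ q : D, tl q = hd p ∧ q.1.1 ≠ p.1.1 := by
    intro p
    obtain ⟨e', he', hne, w, -, hw⟩ := next (loopless_og2 N G hl) hev p.2 (hj p)
    obtain ⟨q, h1, h2, -⟩ := hj' e' he' _ _ hw
    exact ⟨q, h2, by rw [h1]; exact hne⟩
  choose nxt h1 h2 using hnext
  obtain ⟨e0, he0⟩ := hC
  let d0 : D := ⟨(e0, true), he0⟩
  let s : ℕ → D := fun n => nxt^[n] d0
  have hs : ∀ n, s (n + 1) = nxt (s n) := fun n => Function.iterate_succ_apply' nxt n d0
  haveI : Finite D := Subtype.finite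
  have hcard : Nat.card D ≤ 2 * r := by
    have h3 : Nat.card D ≤ Nat.card ({e // e ∈ C} × Bool) := by
      refine Nat.card_le_card_of_injective (fun p : D => ((⟨p.1.1, p.2⟩ : {e // e ∈ C}), p.1.2)) ?_
      intro p q hpq
      have h4 : p.1.1 = q.1.1 := congrArg (fun z => z.1.1) hpq
      have h5 : p.1.2 = q.1.2 := congrArg (fun z => z.2) hpq
      exact Subtype.ext (Prod.ext h4 h5)
    rw [Nat.card_prod] at h3
    have h4 : Nat.card {e // e ∈ C} = C.card := by
      rw [Nat.card_eq_fintype_card, Fintype.card_coe]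
    have h5 : Nat.card Bool = 2 := by rw [Nat.card_eq_fintype_card]; rfl
    rw [h4, h5] at h3
    omega
  -- the pigeonhole principle
  obtain ⟨a, b, hab, hb, hsab⟩ : ∃ a b, a < b ∧ b ≤ 2 * r ∧ s a = s b := by
    by_contra hno
    push Not at hno
    have hinj : Function.Injective (fun n : Fin (2 * r + 1) => s n) := by
      intro m n hmn
      by_contra hne
      rcases lt_or_gt_of_ne (fun h => hne (Fin.ext h) : (m : ℕ) ≠ n) with h | h
      · exact hno m n h (by omega) hmn
      · exact hno n m h (by omega) hmn.symm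
    have h3 := Nat.card_le_card_of_injective _ hinj
    rw [Nat.card_eq_fintype_card, Fintype.card_fin] at h3
    omega
  have hper : ∀ n, s (a + n + (b - a)) = s (a + n) := by
    intro n
    induction n with
    | zero =>
      rw [show a + 0 + (b - a) = b by omega, show a + 0 = a by omega]
      exact hsab.symm
    | succ n ih =>
      rw [show a + (n + 1) + (b - a) = (a + n + (b - a)) + 1 by omega, hs, ih,
        show a + (n + 1) = (a + n) + 1 by omega, hs]
  refine no_short N G (l := b - a) (by omega) (by omega) (fun n => tl (s (a + n)))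
    (fun n => (s (a + n)).1.1) ?_ ?_ ?_ ?_
  · intro n
    show ends2 N G (s (a + n)).1.1 = s(tl (s (a + n)), tl (s (a + (n + 1))))
    rw [show a + (n + 1) = (a + n) + 1 by omega, hs, h1, ← ed_og2]
    rcases hj (s (a + n)) with ⟨h3, h4⟩ | ⟨h3, h4⟩
    · rw [ed, h3, h4]
    · rw [ed, h3, h4, Sym2.eq_swap]
  · intro n
    show (s (a + n)).1.1 ≠ (s (a + (n + 1))).1.1
    rw [show a + (n + 1) = (a + n) + 1 by omega, hs]
    exact (h2 _).symm
  · intro n
    show tl (s (a + (n + (b - a)))) = tl (s (a + n))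
    rw [show a + (n + (b - a)) = a + n + (b - a) by omega, hper]
  · intro n
    show (s (a + (n + (b - a)))).1.1 = (s (a + n)).1.1
    rw [show a + (n + (b - a)) = a + n + (b - a) by omega, hper]

end conn

end Pool.Agent.Q295.RG
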