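import Mathlib
import Pool.Agent.Q234.HF.Core
import Pool.Agent.Q234.HF.Exp

/-!
# The reduction of `1/2`-flow-pairs to 3-edge-connected cubic graphs

This is the reduction of `Pool.Agent.Q234.HF` (hand-in `CubicGirthFive` of helper234), without the
girth.
-/

set_option autoImplicit false

namespace Pool.Agent.Q295.RG
open Pool.Agent.H160R2.HF Pool.Agent.Q234.HF

theorem reduction234
    (H : ∀ (V E : Type) [Fintype V] [Fintype E] [DecidableEq V] [DecidableEq E] (G : OrGraph V E),
      G.Cubic → ThreeEdgeConnected G → ∃ φ₂ φ₄ : E → ℤ, G.IsHalfFlowPair φ₂ φ₄) :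
    ∀ (V E : Type) [Fintype V] [Fintype E] [DecidableEq V] [DecidableEq E] (G : OrGraph V E),
      G.Bridgeless → ∃ φ₂ φ₄ : E → ℤ, G.IsHalfFlowPair φ₂ φ₄ := by
  intro V E _ _ _ _ G hG
  rw [good_iff]
  obtain ⟨σ, h1, h2⟩ := exists_sigma G
  refine good_expand h1 (reduce ?_ _ (expand G σ) rfl (expand_bridgeless hG h2)
    (expand_deg G σ))
  intro K hK
  obtain ⟨h3, h4, _⟩ := core_spec hK
  exact good_core ((good_iff _).1 (H _ _ (core K) h3 h4))

end Pool.Agent.Q295.RG
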