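import Pool.Agent.Q295.RG.Group

/-!
# Substitution of bipartite graphs of large girth for the vertices of an r-graph
-/

set_option autoImplicit false

namespace Pool.Agent.Q295.RG

/-- `r`-graphs: loopless `r`-regular multigraphs (edge set `E`, ends in `V`) in which every odd set
of vertices is left by at least `r` edges. -/
structure RGraph (r : ℕ) {V E : Type} (ends : E → Sym2 V) : Prop where
  loopless : ∀ e, ¬ (ends e).IsDiag
  regular : ∀ v, {e | v ∈ ends e}.ncard = r
  cuts : ∀ X : Set V, Odd X.ncard → r ≤ {e | ∃ u ∈ X, ∃ w, w ∉ X ∧ ends e = s(u, w)}.ncard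

/-- There are `k * r` perfect matchings such that every edge lies in exactly `k` of them. -/
def Cover (k r : ℕ) {V E : Type} (ends : E → Sym2 V) : Prop :=
  ∃ M : Fin (k * r) → Set E, (∀ i v, ∃! e, e ∈ M i ∧ v ∈ ends e) ∧ ∀ e, {i | e ∈ M i}.ncard = k

/-- There is no cycle of a length less than `g` (cycles of length two are pairs of parallel
edges). -/
def GirthGe (g : ℕ) {V E : Type} (ends : E → Sym2 V) : Prop :=
  ∀ l : ℕ, 2 ≤ l → l < g → ¬ ∃ (v : ZMod l → V) (e : ZMod l → E),
    Function.Injective v ∧ Function.Injective e ∧ ∀ i, ends (e i) = s(v i, v (i + 1))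

/-- Every vertex can be reached from every other vertex. -/
def Conn {V E : Type} (ends : E → Sym2 V) : Prop :=
  ∀ u w : V, Relation.ReflTransGen (fun a b => ∃ e, ends e = s(a, b)) u w

/-- local numberings of the edges at the vertices -/
structure Num (r : ℕ) {V E : Type} (ends : E → Sym2 V) where
  num : V → E → Fin r
  eo : V → Fin r → E
  mem : ∀ v i, v ∈ ends (eo v i)
  num_eo : ∀ v i, num v (eo v i) = i
  eo_num : ∀ v e, v ∈ ends e → eo v (num v e) = e

theorem exists_num {r : ℕ} {V E : Type} [Finite E] {ends : E → Sym2 V}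
    (h : ∀ v, {e | v ∈ ends e}.ncard = r) (hr : 1 ≤ r) : Nonempty (Num r ends) := by
  classical
  have h1 : ∀ v, Nonempty ({e // v ∈ ends e} ≃ Fin r) := by
    intro v
    exact ⟨Finite.equivFinOfCardEq (by rw [← h v]; rfl)⟩
  let φ : ∀ v, ({e // v ∈ ends e} ≃ Fin r) := fun v => Classical.choice (h1 v)
  exact ⟨{
    num := fun v e => if hh : v ∈ ends e then φ v ⟨e, hh⟩ else ⟨0, hr⟩
    eo := fun v i => ((φ v).symm i).1
    mem := fun v i => ((φ v).symm i).2
    num_eo := by
      intro v i
      rw [dif_pos ((φ v).symm i).2]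
      exact (φ v).apply_symm_apply i
    eo_num := by
      intro v e hh
      rw [dif_pos hh, (φ v).symm_apply_apply] }⟩

section

variable {r g : ℕ} {V E : Type} {ends : E → Sym2 V} (N : Num r ends) {Λ : Type} [Group Λ]
  (G : Gad r g Λ)

theorem Gad.par_t (i : Fin r) : G.par (G.t i) = true := by
  have h := G.par_mul 1 i
  rw [one_mul, G.par_one] at h
  rw [h]; rfl

theorem Gad.ne_one {x : Λ} (h : G.par x = true) : x ≠ 1 := by
  rintro rfl
  rw [G.par_one] at h
  exact absurd h (by decide)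

theorem Gad.mul_mul (x : Λ) (i : Fin r) : x * G.t i * G.t i = x := by
  rw [mul_assoc, G.sq, mul_one]

/-- the ports -/
def Gad.port (i : Fin r) : {x : Λ // x ≠ 1} := ⟨G.t i, G.ne_one (G.par_t i)⟩

/-- the even elements, without `1` -/
abbrev Gad.Ev : Type := {x : Λ // G.par x = false ∧ x ≠ 1}

theorem Gad.par_nx (x : G.Ev) (i : Fin r) : G.par (x.1 * G.t i) = true := by
  rw [G.par_mul, x.2.1]; rfl

/-- the neighbour with colour `i` -/
def Gad.nx (x : G.Ev) (i : Fin r) : {x : Λ // x ≠ 1} := ⟨x.1 * G.t i, G.ne_one (G.par_nx x i)⟩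

/-- the edges -/
abbrev E2 (V E : Type) {Λ : Type} [Group Λ] {r g : ℕ} (G : Gad r g Λ) : Type :=
  E ⊕ (V × G.Ev × Fin r)

/-- the ends -/
def ends2 : E2 V E G → Sym2 (V × {x : Λ // x ≠ 1})
  | .inl e => (ends e).map (fun v => (v, G.port (N.num v e)))
  | .inr (v, x, i) => s((v, ⟨x.1, x.2.2⟩), (v, G.nx x i))

/-- the edge with colour `i` at a vertex -/
noncomputable def edgeAt (p : V × {x : Λ // x ≠ 1}) (i : Fin r) : E2 V E G := by
  classical
  exact if hx : G.par p.2.1 = false then .inr (p.1, ⟨p.2.1, hx, p.2.2⟩, i)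
    else if h1 : p.2.1 * G.t i = 1 then .inl (N.eo p.1 i)
    else .inr (p.1, ⟨p.2.1 * G.t i, by
      rw [G.par_mul]
      cases hh : G.par p.2.1
      · exact absurd hh hx
      · rfl, h1⟩, i)

theorem mem_iff (p : V × {x : Λ // x ≠ 1}) (f : E2 V E G) :
    p ∈ ends2 N G f ↔ ∃ i, f = edgeAt N G p i := by
  classical
  obtain ⟨v, x, hx1⟩ := p
  constructor
  · intro h
    rcases f with e | ⟨u, y, i⟩
    · have h' : (v, (⟨x, hx1⟩ : {x : Λ // x ≠ 1})) ∈
          (ends e).map (fun v => (v, G.port (N.num v e))) := h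
      rw [Sym2.mem_map] at h'
      obtain ⟨u, hu, huv⟩ := h'
      rw [Prod.mk.injEq] at huv
      obtain ⟨rfl, h2⟩ := huv
      have h3 : G.t (N.num u e) = x := congrArg Subtype.val h2
      refine ⟨N.num u e, ?_⟩
      unfold edgeAt
      have h4 : ¬ G.par x = false := by
        rw [← h3, G.par_t]
        decide
      have h5 : x * G.t (N.num u e) = 1 := by rw [← h3, G.sq]
      rw [dif_neg h4, dif_pos h5, N.eo_num u e hu]
    · have h' : (v, (⟨x, hx1⟩ : {x : Λ // x ≠ 1})) ∈
          s((u, (⟨y.1, y.2.2⟩ : {x : Λ // x ≠ 1})), (u, G.nx y i)) := h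
      rw [Sym2.mem_iff] at h'
      rcases h' with h' | h'
      · rw [Prod.mk.injEq] at h'
        obtain ⟨rfl, h2⟩ := h'
        have h3 : x = y.1 := congrArg Subtype.val h2
        refine ⟨i, ?_⟩
        unfold edgeAt
        have h4 : G.par x = false := by rw [h3]; exact y.2.1
        rw [dif_pos h4]
        congr 1
        refine Prod.ext rfl (Prod.ext (Subtype.ext h3.symm) rfl)
      · rw [Prod.mk.injEq] at h'
        obtain ⟨rfl, h2⟩ := h'
        have h3 : x = y.1 * G.t i := congrArg Subtype.val h2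
        refine ⟨i, ?_⟩
        unfold edgeAt
        have h4 : ¬ G.par x = false := by rw [h3, G.par_nx]; decide
        have h5 : x * G.t i = y.1 := by rw [h3, G.mul_mul]
        have h6 : ¬ x * G.t i = 1 := by rw [h5]; exact y.2.2
        rw [dif_neg h4, dif_neg h6]
        congr 1
        refine Prod.ext rfl (Prod.ext (Subtype.ext h5.symm) rfl)
  · rintro ⟨i, rfl⟩
    unfold edgeAt
    split_ifs with h1 h2
    · show _ ∈ s(_, _)
      rw [Sym2.mem_iff]
      exact Or.inl rfl
    · show _ ∈ (ends (N.eo v i)).map _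
      rw [Sym2.mem_map]
      refine ⟨v, N.mem v i, ?_⟩
      rw [N.num_eo]
      refine Prod.ext rfl (Subtype.ext ?_)
      show G.t i = x
      have h3 := G.mul_mul x i
      have h2' : x * G.t i = 1 := h2
      rw [h2', one_mul] at h3
      exact h3
    · show _ ∈ s(_, _)
      rw [Sym2.mem_iff]
      refine Or.inr (Prod.ext rfl (Subtype.ext ?_))
      show x = x * G.t i * G.t i
      rw [G.mul_mul]

theorem edgeAt_inj (p : V × {x : Λ // x ≠ 1}) : Function.Injective (edgeAt N G p) := by
  classical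
  intro i j h
  unfold edgeAt at h
  by_cases h1 : G.par p.2.1 = false
  · rw [dif_pos h1, dif_pos h1] at h
    have h2 := Sum.inr.inj h
    exact congrArg (fun q => q.2.2) h2
  · rw [dif_neg h1, dif_neg h1] at h
    by_cases h2 : p.2.1 * G.t i = 1
    · by_cases h3 : p.2.1 * G.t j = 1
      · rw [dif_pos h2, dif_pos h3] at h
        have h4 := Sum.inl.inj h
        rw [← N.num_eo p.1 i, h4, N.num_eo]
      · rw [dif_pos h2, dif_neg h3] at h
        exact absurd h (by simp)
    · by_cases h3 : p.2.1 * G.t j = 1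
      · rw [dif_neg h2, dif_pos h3] at h
        exact absurd h (by simp)
      · rw [dif_neg h2, dif_neg h3] at h
        have h4 := Sum.inr.inj h
        exact congrArg (fun q => q.2.2) h4

theorem regular2 (p : V × {x : Λ // x ≠ 1}) : {f | p ∈ ends2 N G f}.ncard = r := by
  have h : {f | p ∈ ends2 N G f} = Set.range (edgeAt N G p) := by
    ext f
    rw [Set.mem_setOf_eq, mem_iff]
    constructor
    · rintro ⟨i, rfl⟩
      exact ⟨i, rfl⟩
    · rintro ⟨i, rfl⟩
      exact ⟨i, rfl⟩
  rw [h, ← Set.image_univ, Set.ncard_image_of_injective _ (edgeAt_inj N G p), Set.ncard_univ,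
    Nat.card_eq_fintype_card, Fintype.card_fin]

theorem loopless2 (h : ∀ e, ¬ (ends e).IsDiag) (f : E2 V E G) : ¬ (ends2 N G f).IsDiag := by
  rcases f with e | ⟨v, x, i⟩
  · have h1 := h e
    show ¬ ((ends e).map _).IsDiag
    revert h1
    generalize ends e = z
    induction z using Sym2.ind with
    | _ a b =>
      intro h1 h2
      rw [Sym2.mk_isDiag_iff] at h1
      rw [Sym2.map_mk, Sym2.mk_isDiag_iff] at h2
      exact h1 (congrArg Prod.fst h2)
  · show ¬ (s(_, _)).IsDiag
    rw [Sym2.mk_isDiag_iff]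
    intro h1
    have h2 : x.1 = x.1 * G.t i := congrArg (fun q => q.2.1) h1
    have h3 := G.par_nx x i
    rw [← h2, x.2.1] at h3
    exact absurd h3 (by decide)

/-- the matched edge outside is unique -/
theorem outer [Finite Λ] (hr : 1 ≤ r) (M : Set (E2 V E G))
    (hM : ∀ p, ∃! f, f ∈ M ∧ p ∈ ends2 N G f) (v : V) :
    ∃! e, (Sum.inl e : E2 V E G) ∈ M ∧ v ∈ ends e := by
  classical
  choose f hf hu using hM
  have hf1 : ∀ p, f p ∈ M := fun p => (hf p).1
  have hf2 : ∀ p, p ∈ ends2 N G (f p) := fun p => (hf p).2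
  have hu' : ∀ p q, q ∈ M → p ∈ ends2 N G q → q = f p := fun p q h1 h2 => hu p q ⟨h1, h2⟩
  have hc : ∀ x : G.Ev, ∃ i, f (v, ⟨x.1, x.2.2⟩) = .inr (v, x, i) := by
    intro x
    obtain ⟨i, hi⟩ := (mem_iff N G _ _).mp (hf2 (v, ⟨x.1, x.2.2⟩))
    refine ⟨i, ?_⟩
    rw [hi]
    unfold edgeAt
    rw [dif_pos x.2.1]
  choose c hc using hc
  let Od : Type := {x : Λ // G.par x = true}
  let φ : G.Ev → Od := fun x => ⟨x.1 * G.t (c x), G.par_nx x (c x)⟩
  have hφf : ∀ x : G.Ev, f (v, ⟨(φ x).1, G.ne_one (φ x).2⟩) = .inr (v, x, c x) := by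
    intro x
    symm
    apply hu'
    · rw [← hc x]; exact hf1 _
    · show _ ∈ s(_, _)
      rw [Sym2.mem_iff]
      exact Or.inr rfl
  have hφ : Function.Injective φ := by
    intro x y hxy
    have h1 := hφf x
    have h2 := hφf y
    rw [hxy] at h1
    rw [h1] at h2
    have h3 := Sum.inr.inj h2
    exact congrArg (fun q => q.2.1) h3
  have hcard : Nat.card Od = Nat.card G.Ev + 1 := by
    have e1 : Nat.card Od = Nat.card {x : Λ // G.par x = false} := by
      refine Nat.card_congr ⟨fun x => ⟨x.1 * G.t ⟨0, hr⟩, by rw [G.par_mul, x.2]; rfl⟩,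
        fun x => ⟨x.1 * G.t ⟨0, hr⟩, by rw [G.par_mul, x.2]; rfl⟩, ?_, ?_⟩
      · intro x
        exact Subtype.ext (G.mul_mul _ _)
      · intro x
        exact Subtype.ext (G.mul_mul _ _)
    have e2 : {x : Λ | G.par x = false} = insert 1 {x : Λ | G.par x = false ∧ x ≠ 1} := by
      ext x
      simp only [Set.mem_setOf_eq, Set.mem_insert_iff]
      constructor
      · intro h
        by_cases hx : x = 1
        · exact Or.inl hx
        · exact Or.inr ⟨h, hx⟩
      · rintro (rfl | h)
        · exact G.par_one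
        · exact h.1
    have e3 : ({x : Λ | G.par x = false} : Set Λ).ncard =
        ({x : Λ | G.par x = false ∧ x ≠ 1} : Set Λ).ncard + 1 := by
      rw [e2, Set.ncard_insert_of_notMem (by simp)]
    rw [e1]
    exact e3
  have hone : ((Set.range φ)ᶜ : Set Od).ncard = 1 := by
    have h1 := Set.ncard_add_ncard_compl (Set.range φ)
    rw [← Set.image_univ, Set.ncard_image_of_injective _ hφ, Set.ncard_univ, Set.image_univ,
      hcard] at h1
    omega
  rw [Set.ncard_eq_one] at hone
  obtain ⟨z, hz⟩ := hone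
  have hz1 : z ∉ Set.range φ := by
    have : z ∈ ((Set.range φ)ᶜ : Set Od) := by rw [hz]; rfl
    exact this
  have hz2 : ∀ y : Od, y ∉ Set.range φ → y = z := by
    intro y hy
    have : y ∈ ((Set.range φ)ᶜ : Set Od) := hy
    rw [hz] at this
    exact this
  -- the edge at z
  have hkey : ∀ (q : E2 V E G), f (v, ⟨z.1, G.ne_one z.2⟩) = q → ∃ e, q = .inl e ∧ v ∈ ends e := by
    intro q hq
    rcases q with e | ⟨u, y, i⟩
    · refine ⟨e, rfl, ?_⟩
      have h1 := hf2 (v, ⟨z.1, G.ne_one z.2⟩)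
      rw [hq] at h1
      have h2 : _ ∈ (ends e).map (fun v => (v, G.port (N.num v e))) := h1
      rw [Sym2.mem_map] at h2
      obtain ⟨u, hu1, hu2⟩ := h2
      have h3 : u = v := congrArg Prod.fst hu2
      rw [← h3]
      exact hu1
    · exfalso
      have h1 := hf2 (v, ⟨z.1, G.ne_one z.2⟩)
      rw [hq] at h1
      have h2 : _ ∈ s(_, _) := h1
      rw [Sym2.mem_iff] at h2
      rcases h2 with h2 | h2
      · have h3 : z.1 = y.1 := congrArg (fun q => q.2.1) h2
        have h4 := z.2
        rw [h3, y.2.1] at h4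
        exact absurd h4 (by decide)
      · have h3 : v = u := congrArg Prod.fst h2
        subst h3
        have h4 : z.1 = y.1 * G.t i := congrArg (fun q => q.2.1) h2
        have h5 : (Sum.inr (v, y, i) : E2 V E G) = f (v, ⟨y.1, y.2.2⟩) := by
          apply hu'
          · rw [← hq]; exact hf1 _
          · show _ ∈ s(_, _)
            rw [Sym2.mem_iff]
            exact Or.inl rfl
        rw [hc y] at h5
        have h6 : i = c y := congrArg (fun q => q.2.2) (Sum.inr.inj h5)
        apply hz1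
        refine ⟨y, Subtype.ext ?_⟩
        show y.1 * G.t (c y) = z.1
        rw [← h6, h4]
  obtain ⟨e0, he1, he2⟩ := hkey _ rfl
  refine ⟨e0, ⟨by rw [← he1]; exact hf1 _, he2⟩, ?_⟩
  rintro e ⟨h1, h2⟩
  have h3 : (v, G.port (N.num v e)) ∈ ends2 N G (.inl e) := by
    show _ ∈ (ends e).map _
    rw [Sym2.mem_map]
    exact ⟨v, h2, rfl⟩
  have h4 := hu' _ _ h1 h3
  have h5 : (⟨G.t (N.num v e), G.par_t _⟩ : Od) = z := by
    apply hz2
    rintro ⟨y, hy⟩
    have h6 := hφf y
    have h7 : (⟨(φ y).1, G.ne_one (φ y).2⟩ : {x : Λ // x ≠ 1}) = G.port (N.num v e) := by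
      have h8 : (φ y).1 = G.t (N.num v e) := congrArg Subtype.val hy
      exact Subtype.ext h8
    rw [h7, ← h4] at h6
    exact absurd h6 (by simp)
  have h8 : G.port (N.num v e) = ⟨z.1, G.ne_one z.2⟩ := by
    have h9 : G.t (N.num v e) = z.1 := congrArg Subtype.val h5
    exact Subtype.ext h9
  rw [h8, he1] at h4
  exact Sum.inl.inj h4

/-- The cover equivalence. -/
theorem cover_iff [Finite Λ] (hr : 1 ≤ r) (k : ℕ) : Cover k r (ends2 N G) ↔ Cover k r ends := by
  classical
  constructor
  · rintro ⟨M, hM, hk⟩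
    refine ⟨fun j => {e | (Sum.inl e : E2 V E G) ∈ M j}, ?_, ?_⟩
    · intro j v
      exact outer N G hr (M j) (hM j) v
    · intro e
      exact hk (.inl e)
  · rintro ⟨M, hM, hk⟩
    refine ⟨fun j => {f | (∃ e ∈ M j, f = .inl e) ∨
      ∃ v x i, f = .inr (v, x, i) ∧ N.eo v i ∈ M j}, ?_, ?_⟩
    · intro j p
      obtain ⟨v, x⟩ := p
      obtain ⟨e, ⟨he1, he2⟩, he3⟩ := hM j v
      refine ⟨edgeAt N G (v, x) (N.num v e), ⟨?_, (mem_iff N G _ _).mpr ⟨_, rfl⟩⟩, ?_⟩
      · unfold edgeAt
        split_ifs with h1 h2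
        · exact Or.inr ⟨_, _, _, rfl, by rw [N.eo_num v e he2]; exact he1⟩
        · exact Or.inl ⟨_, by rw [N.eo_num v e he2]; exact he1, rfl⟩
        · exact Or.inr ⟨_, _, _, rfl, by rw [N.eo_num v e he2]; exact he1⟩
      · rintro f ⟨hf1, hf2⟩
        obtain ⟨i, rfl⟩ := (mem_iff N G _ _).mp hf2
        congr 1
        have key : N.eo v i ∈ M j := by
          rcases hf1 with ⟨e', h1, h2⟩ | ⟨v', x', i', h1, h2⟩
          · unfold edgeAt at h2
            split_ifs at h2 with h3 h4
            have h5 := Sum.inl.inj h2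
            have h6 : N.eo v i = e' := h5
            rw [h6]; exact h1
          · unfold edgeAt at h1
            split_ifs at h1 with h3 h4
            · have h5 := Sum.inr.inj h1
              have h6 : v = v' := congrArg Prod.fst h5
              have h7 : i = i' := congrArg (fun q => q.2.2) h5
              rw [h6, h7]; exact h2
            · have h5 := Sum.inr.inj h1
              have h6 : v = v' := congrArg Prod.fst h5
              have h7 : i = i' := congrArg (fun q => q.2.2) h5
              rw [h6, h7]; exact h2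
        have h6 := he3 _ ⟨key, N.mem v i⟩
        rw [← N.num_eo v i, h6]
    · rintro (e | ⟨v, x, i⟩)
      · refine Eq.trans (congrArg Set.ncard ?_) (hk e)
        ext j
        constructor
        · rintro (⟨e', h1, h2⟩ | ⟨v, x, i, h1, h2⟩)
          · rw [Sum.inl.inj h2]; exact h1
          · exact absurd h1 (by simp)
        · intro h
          exact Or.inl ⟨e, h, rfl⟩
      · refine Eq.trans (congrArg Set.ncard ?_) (hk (N.eo v i))
        ext j
        constructor
        · rintro (⟨e', h1, h2⟩ | ⟨v', x', i', h1, h2⟩)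
          · exact absurd h2 (by simp)
          · have h5 := Sum.inr.inj h1
            have h6 : v = v' := congrArg Prod.fst h5
            have h7 : i = i' := congrArg (fun q => q.2.2) h5
            show N.eo v i ∈ M j
            rw [h6, h7]; exact h2
        · intro h
          exact Or.inr ⟨v, x, i, rfl, h⟩

/-- the cut of a set of vertices -/
def cut {V E : Type} (ends : E → Sym2 V) (X : Set V) : Set E :=
  {e | ∃ u ∈ X, ∃ w, w ∉ X ∧ ends e = s(u, w)}

theorem even_of [Finite Λ] (X : Set (V × {x : Λ // x ≠ 1})) (v : V) (i : Fin r)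
    (h : ∀ y : G.Ev, (Sum.inr (v, y, i) : E2 V E G) ∉ cut (ends2 N G) X) :
    Even {x : {x : Λ // x ≠ 1} | (v, x) ∈ X ∧ x ≠ G.port i}.ncard := by
  classical
  have hiff : ∀ y : G.Ev, (v, (⟨y.1, y.2.2⟩ : {x : Λ // x ≠ 1})) ∈ X ↔ (v, G.nx y i) ∈ X := by
    intro y
    by_contra hne
    apply h y
    by_cases h1 : (v, (⟨y.1, y.2.2⟩ : {x : Λ // x ≠ 1})) ∈ X
    · have h2 : (v, G.nx y i) ∉ X := fun h3 => hne ⟨fun _ => h3, fun _ => h1⟩
      exact ⟨_, h1, _, h2, rfl⟩
    · have h2 : (v, G.nx y i) ∈ X := by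
        by_contra h3
        exact hne ⟨fun h4 => absurd h4 h1, fun h4 => absurd h4 h3⟩
      exact ⟨_, h2, _, h1, Sym2.eq_swap⟩
  have hsplit : {x : {x : Λ // x ≠ 1} | (v, x) ∈ X ∧ x ≠ G.port i} =
      {x : {x : Λ // x ≠ 1} | (v, x) ∈ X ∧ G.par x.1 = false} ∪
      (fun y : {x : Λ // x ≠ 1} => if hy : G.par y.1 = false then G.nx ⟨y.1, hy, y.2⟩ i else y) ''
        {x : {x : Λ // x ≠ 1} | (v, x) ∈ X ∧ G.par x.1 = false} := by
    ext x
    simp only [Set.mem_setOf_eq, Set.mem_union, Set.mem_image]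
    constructor
    · rintro ⟨h1, h2⟩
      by_cases hx : G.par x.1 = false
      · exact Or.inl ⟨h1, hx⟩
      · right
        have hx' : G.par x.1 = true := by
          cases hh : G.par x.1
          · exact absurd hh hx
          · rfl
        have h3 : x.1 * G.t i ≠ 1 := by
          intro h4
          apply h2
          apply Subtype.ext
          have h5 := G.mul_mul x.1 i
          rw [h4, one_mul] at h5
          exact h5.symm
        have h4 : G.par (x.1 * G.t i) = false := by rw [G.par_mul, hx']; rfl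
        have h5 := hiff ⟨x.1 * G.t i, h4, h3⟩
        have h6 : G.nx ⟨x.1 * G.t i, h4, h3⟩ i = x := Subtype.ext (G.mul_mul _ _)
        refine ⟨⟨x.1 * G.t i, h3⟩, ⟨?_, h4⟩, ?_⟩
        · rw [h6] at h5
          exact h5.mpr h1
        · rw [dif_pos h4]
          exact h6
    · rintro (⟨h1, h2⟩ | ⟨y, ⟨h1, h2⟩, h3⟩)
      · refine ⟨h1, ?_⟩
        rintro rfl
        rw [show (G.port i).1 = G.t i from rfl, G.par_t] at h2
        exact absurd h2 (by decide)
      · rw [dif_pos h2] at h3
        subst h3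
        refine ⟨(hiff ⟨y.1, h2, y.2⟩).mp h1, ?_⟩
        intro h4
        have h5 : y.1 * G.t i = G.t i := congrArg Subtype.val h4
        exact y.2 (by simpa using h5)
  have hdisj : Disjoint {x : {x : Λ // x ≠ 1} | (v, x) ∈ X ∧ G.par x.1 = false}
      ((fun y : {x : Λ // x ≠ 1} => if hy : G.par y.1 = false then G.nx ⟨y.1, hy, y.2⟩ i else y) ''
        {x : {x : Λ // x ≠ 1} | (v, x) ∈ X ∧ G.par x.1 = false}) := by
    rw [Set.disjoint_left]
    rintro x ⟨h1, h2⟩ ⟨y, ⟨h3, h4⟩, h5⟩
    simp only at h5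
    rw [dif_pos h4] at h5
    rw [← h5, show (G.nx ⟨y.1, h4, y.2⟩ i).1 = y.1 * G.t i from rfl, G.par_mul, h4] at h2
    exact absurd h2 (by decide)
  have hinj : Set.InjOn
      (fun y : {x : Λ // x ≠ 1} => if hy : G.par y.1 = false then G.nx ⟨y.1, hy, y.2⟩ i else y)
      {x : {x : Λ // x ≠ 1} | (v, x) ∈ X ∧ G.par x.1 = false} := by
    rintro x ⟨h1, h2⟩ y ⟨h3, h4⟩ h5
    simp only at h5
    rw [dif_pos h4, dif_pos h2] at h5
    have h6 : x.1 * G.t i = y.1 * G.t i := congrArg Subtype.val h5
    exact Subtype.ext (mul_right_cancel h6)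
  rw [hsplit, Set.ncard_union_eq hdisj (Set.toFinite _) (Set.toFinite _),
    Set.ncard_image_of_injOn hinj]
  exact ⟨_, rfl⟩

theorem odd_fibres [Finite V] {W : Type} [Finite W] (X : Set (V × W)) (hX : Odd X.ncard) :
    Odd {v : V | Odd {x : W | (v, x) ∈ X}.ncard}.ncard := by
  classical
  haveI := Fintype.ofFinite V
  haveI := Fintype.ofFinite W
  have h1 : X.ncard = ∑ v : V, {x : W | (v, x) ∈ X}.ncard := by
    rw [Set.ncard_eq_toFinset_card' X, Finset.card_eq_sum_card_fiberwise (f := Prod.fst)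
      (t := Finset.univ) (by intro x _; exact Finset.mem_coe.mpr (Finset.mem_univ _))]
    refine Finset.sum_congr rfl fun v _ => ?_
    rw [Set.ncard_eq_toFinset_card' {x : W | (v, x) ∈ X}]
    refine Finset.card_bij' (fun p _ => p.2) (fun x _ => (v, x)) ?_ ?_ ?_ ?_
    · rintro ⟨a, b⟩ h
      simp only [Finset.mem_filter, Set.mem_toFinset] at h
      obtain ⟨h2, rfl⟩ := h
      simpa using h2
    · intro x h
      simpa using h
    · rintro ⟨a, b⟩ h
      simp only [Finset.mem_filter, Set.mem_toFinset] at h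
      obtain ⟨h2, rfl⟩ := h
      rfl
    · intro x h
      rfl
  rw [h1, Finset.odd_sum_iff_odd_card_odd] at hX
  rw [Set.ncard_eq_toFinset_card']
  convert hX using 2
  ext v
  simp

/-- the edge of the old graph which belongs to an edge of the new graph -/
def pr : E2 V E G → E
  | .inl e => e
  | .inr (v, _, i) => N.eo v i

theorem cuts2 [Finite V] [Finite E] [Finite Λ]
    (h : ∀ X : Set V, Odd X.ncard → r ≤ {e | ∃ u ∈ X, ∃ w, w ∉ X ∧ ends e = s(u, w)}.ncard)
    (X : Set (V × {x : Λ // x ≠ 1})) (hX : Odd X.ncard) : r ≤ (cut (ends2 N G) X).ncard := by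
  classical
  have h1 := h _ (odd_fibres X hX)
  refine h1.trans ?_
  refine (Set.ncard_le_ncard ?_ (Set.toFinite (pr N G '' cut (ends2 N G) X))).trans
    (Set.ncard_image_le (Set.toFinite _))
  rintro e ⟨u, hu, w, hw, he⟩
  by_contra hno
  have hno' : ∀ f : E2 V E G, pr N G f = e → f ∉ cut (ends2 N G) X := by
    intro f hf hf'
    exact hno ⟨f, hf', hf⟩
  have hue : u ∈ ends e := by rw [he]; exact Sym2.mem_mk_left _ _
  have hwe : w ∈ ends e := by rw [he]; exact Sym2.mem_mk_right _ _
  have hu1 := even_of N G X u (N.num u e) (fun y => hno' _ (N.eo_num u e hue))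
  have hw1 := even_of N G X w (N.num w e) (fun y => hno' _ (N.eo_num w e hwe))
  have hu2 : (u, G.port (N.num u e)) ∈ X := by
    by_contra h2
    have h3 : {x : {x : Λ // x ≠ 1} | (u, x) ∈ X ∧ x ≠ G.port (N.num u e)} =
        {x : {x : Λ // x ≠ 1} | (u, x) ∈ X} := by
      ext x
      simp only [Set.mem_setOf_eq]
      constructor
      · exact fun h => h.1
      · intro h
        refine ⟨h, ?_⟩
        rintro rfl
        exact h2 h
    rw [h3] at hu1
    exact (Nat.not_even_iff_odd.mpr hu) hu1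
  have hw2 : (w, G.port (N.num w e)) ∉ X := by
    intro h2
    have h3 : {x : {x : Λ // x ≠ 1} | (w, x) ∈ X} = insert (G.port (N.num w e))
        {x : {x : Λ // x ≠ 1} | (w, x) ∈ X ∧ x ≠ G.port (N.num w e)} := by
      ext x
      simp only [Set.mem_setOf_eq, Set.mem_insert_iff]
      constructor
      · intro h
        by_cases hx : x = G.port (N.num w e)
        · exact Or.inl hx
        · exact Or.inr ⟨h, hx⟩
      · rintro (rfl | h)
        · exact h2
        · exact h.1
    apply hw
    show Odd {x : {x : Λ // x ≠ 1} | (w, x) ∈ X}.ncard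
    rw [h3, Set.ncard_insert_of_notMem (by simp)]
    exact hw1.add_one
  apply hno' (.inl e) rfl
  refine ⟨_, hu2, _, hw2, ?_⟩
  show (ends e).map _ = _
  rw [he, Sym2.map_mk]

theorem rgraph2 [Finite V] [Finite E] [Finite Λ] (h : RGraph r ends) :
    RGraph r (ends2 N G) :=
  ⟨loopless2 N G h.loopless, regular2 N G, cuts2 N G h.cuts⟩

end

end Pool.Agent.Q295.RG
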